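import Pool.Agent.Run7.h710.MT.S

/-!
# The chain: the numbers are almost constant when the marked time moves, and the bound
-/

set_option autoImplicit false

namespace Pool.Agent.Run7.h710.MT

open Finset Pool.Agent.H976R2
open Pool.Agent.TH546.SAW (W mem_W card_W)
open Pool.Agent.W840.CT (cn)
open H726.GB (low_sq)
open scoped Classical

noncomputable section

/-! Inequalities between real numbers -/

theorem r1 {K L : ℝ} (hK : 16 ≤ K) (hL : 1 / 2 ≤ L) : 8 ≤ K * L := by nlinarith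

theorem r2 {t j s : ℝ} (ht : 8 ≤ t) (hj : 0 ≤ j) (h : t * j ≤ s) : 8 * j ≤ s := by
  have := mul_le_mul_of_nonneg_right ht hj
  linarith

theorem r3 {L : ℝ} (hL : 1 / 2 ≤ L) : 1 / 4 ≤ L ^ 2 := by nlinarith

theorem r4 {K L r : ℝ} (hK : 16 ≤ K) (hL : 1 / 4 ≤ L ^ 2) (hr : K * L ^ 2 ≤ r) : 4 ≤ r := by
  have := mul_le_mul hK hL (by norm_num) (by linarith)
  linarith

theorem r5 {s r : ℝ} (hs : 0 ≤ s) (h : s * s = r) (hr : 4 ≤ r) : 2 ≤ s := by
  by_contra hcon
  push Not at hcon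
  nlinarith

theorem r6 {s r : ℝ} (hs : 2 ≤ s) (h : s * s = r) : s ≤ r := by nlinarith

theorem r7 {K K3 L j s : ℝ} (h : 8 * K3 ≤ K) (hL : 0 ≤ L) (hj : 0 ≤ j) (hh : K * L * j ≤ s) :
    4 * K3 * (L * j) ≤ 1 / 2 * s := by
  have h1 := mul_le_mul_of_nonneg_right h (mul_nonneg hL hj)
  have h2 : K * (L * j) ≤ s := by rw [← mul_assoc]; exact hh
  linarith

theorem r8 {ε j : ℝ} (hε : 0 ≤ ε) (hj : 0 ≤ j) :
    (1 - 2 * ε * (j + 1)) ≤ (1 - 2 * ε) * (1 - 2 * ε * j) := by
  have e : (1 - 2 * ε) * (1 - 2 * ε * j) = (1 - 2 * ε * (j + 1)) + 4 * (ε * ε * j) := by ring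
  rw [e]
  have := mul_nonneg (mul_nonneg hε hε) hj
  linarith

theorem r9 {ε t : ℝ} (hε : 0 ≤ ε) (ht : 1 ≤ t) : (1 - 2 * ε) * (t + ε) ≤ t - ε := by
  have e : (1 - 2 * ε) * (t + ε) = t - ε - 2 * (ε * (t - 1)) - 2 * (ε * ε) := by ring
  rw [e]
  have h1 := mul_nonneg hε (sub_nonneg.2 ht)
  have h2 := mul_nonneg hε hε
  linarith

theorem r10 {ε j : ℝ} (hε : 0 ≤ ε) (hj : 0 ≤ j) (h : 1 - 2 * ε ≤ 0) : 1 - 2 * ε * (j + 1) ≤ 0 := by
  have h1 := mul_nonneg hε hj
  have e : 1 - 2 * ε * (j + 1) = (1 - 2 * ε) - 2 * (ε * j) := by ring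
  rw [e]
  linarith

theorem r11 {l L : ℝ} (hl : 0 ≤ l) (hlL : l ≤ L) : l ^ 2 ≤ L ^ 2 := pow_le_pow_left₀ hl hlL 2

theorem r12 {l L : ℝ} (hL : 0 ≤ L) (hLl : L ≤ 2 * l) : L ^ 2 ≤ 4 * l ^ 2 := by
  have := pow_le_pow_left₀ hL hLl 2
  have e : (2 * l) ^ 2 = 4 * l ^ 2 := by ring
  linarith

theorem r13 {x : ℝ} (hx : 2 ≤ x) : x + 2 ≤ x ^ 2 := by nlinarith

theorem r14 {s r u : ℝ} (h : s * s = r) (hu : r / 4 ≤ u) : (s / 2) ^ 2 ≤ u := by
  have e : (s / 2) ^ 2 = s * s / 4 := by ring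
  rw [e, h]
  exact hu

theorem r15 {K L j s : ℝ} (hKL : 8 ≤ K * L) (h : K * L * (j + 1) ≤ s) : K * L * j ≤ s := by
  have e : K * L * (j + 1) = K * L * j + K * L := by ring
  rw [e] at h
  linarith

theorem r16 {l L : ℝ} (hL : 1 / 4 ≤ L ^ 2) (h : L ^ 2 ≤ 4 * l ^ 2) (t : ℝ) (ht : t < 0.6931471808) :
    -(16 * l ^ 2) ≤ -t + -(L ^ 2) := by
  linarith

theorem r17 {K : ℝ} (hK : 1 ≤ K) : K + 4 ≤ (8 * K + 4) ^ 2 := by nlinarith

theorem r18 {L : ℝ} (hL : 1 / 2 ≤ L) : -(L ^ 2) + L / 2 ≤ 0 := by nlinarith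

theorem r19 {K L : ℝ} (hK : 1 ≤ K) (hL : 1 / 2 ≤ L) : 1 ≤ (8 * K + 4) * L := by nlinarith

theorem r20 {K L r : ℝ} (hK : 1 ≤ K) (hL : 1 / 4 ≤ L ^ 2) (h : K * L ^ 2 ≤ r) : 1 / 4 ≤ r := by
  have := mul_le_mul hK hL (by norm_num) (by linarith)
  linarith

theorem r21 {s K L X B c q : ℝ} (hKL : 0 < K * L) (hX : 0 ≤ X) (hL : 0 ≤ L) (hB : 0 ≤ B * c)
    (h8 : s / (K * L) * (X / 2) ≤ B * c) (h9 : q ≤ 3 * s) (hq : 0 < q) :
    X ≤ (8 * K + 4) * B * (L / q) * c := by
  have e : (8 * K + 4) * B * (L / q) * c = ((8 * K + 4) * L * (B * c)) / q := by ring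
  rw [e, le_div_iff₀ hq]
  have h1 : s * X ≤ 2 * (K * L * (B * c)) := by
    have e2 : s / (K * L) * (X / 2) = s * X / (2 * (K * L)) := by
      field_simp
    rw [e2, div_le_iff₀ (by linarith)] at h8
    linarith
  have h2 : X * q ≤ X * (3 * s) := mul_le_mul_of_nonneg_left h9 hX
  have h3 : 0 ≤ L * (B * c) := mul_nonneg hL hB
  have h4 : 0 ≤ K * L * (B * c) := mul_nonneg hKL.le hB
  have e3 : (8 * K + 4) * L * (B * c) = 8 * (K * L * (B * c)) + 4 * (L * (B * c)) := by ring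
  rw [e3]
  linarith

/-- `log (x + 2) / √x` is almost decreasing -/
theorem dec {s u L : ℝ} (hs : 0 < s) (hu : s / 2 ≤ u) (hL : L = Real.log (s ^ 2 + 2))
    (hL1 : 1 / 2 ≤ L) : Real.log (u ^ 2 + 2) * s ≤ 5 * L * u := by
  have hu0 : 0 < u := by linarith
  rcases le_total u s with h | h
  · have h1 : Real.log (u ^ 2 + 2) ≤ L := by
      rw [hL]
      exact Real.log_le_log (by positivity) (by
        have := pow_le_pow_left₀ hu0.le h 2
        linarith)
    calc Real.log (u ^ 2 + 2) * s ≤ L * s := mul_le_mul_of_nonneg_right h1 hs.le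
      _ ≤ L * (2 * u) := mul_le_mul_of_nonneg_left (by linarith) (by linarith)
      _ ≤ 5 * L * u := by
        have := mul_nonneg (show (0 : ℝ) ≤ L by linarith) hu0.le
        linarith
  · have h1 : Real.log (u ^ 2 + 2) ≤ L + Real.log ((u / s) ^ 2) := by
      rw [hL, ← Real.log_mul (by positivity) (by positivity)]
      apply Real.log_le_log (by positivity)
      have h2 : 1 ≤ (u / s) ^ 2 := one_le_pow₀ (by rw [le_div_iff₀ hs]; linarith)
      have e : (s ^ 2 + 2) * (u / s) ^ 2 = u ^ 2 + 2 * (u / s) ^ 2 := by field_simp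
      rw [e]
      linarith
    have h2 : Real.log ((u / s) ^ 2) ≤ 2 * (u / s) := by
      rw [Real.log_pow]
      have h3 := Real.log_le_sub_one_of_pos (show 0 < u / s by positivity)
      push_cast
      linarith
    calc Real.log (u ^ 2 + 2) * s ≤ (L + 2 * (u / s)) * s :=
          mul_le_mul_of_nonneg_right (by linarith) hs.le
      _ = L * s + 2 * u := by field_simp
      _ ≤ L * u + 4 * L * u := by
        have h4 := mul_le_mul_of_nonneg_left h (show (0 : ℝ) ≤ L by linarith)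
        have h5 := mul_le_mul_of_nonneg_right (show (2 : ℝ) ≤ 4 * L by linarith) hu0.le
        linarith
      _ = _ := by ring

theorem dec2 {s L K Ki r x : ℝ} (hs : 0 < s) (hss : s * s = r) (hL : L = Real.log (r + 2))
    (hL1 : 1 / 2 ≤ L) (hx : r / 4 ≤ x) (hK : K * L ^ 2 ≤ r) (hKi : 25 * Ki ≤ K) (hKi0 : 0 ≤ Ki) :
    Ki * Real.log (x + 2) ^ 2 ≤ x ∧ Ki * (Real.log (x + 2) / Real.sqrt x) ≤ 5 * Ki * L / s := by
  have hr0 : 0 < r := by rw [← hss]; positivity
  have hx0 : 0 < x := by linarith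
  obtain ⟨u, hu⟩ : ∃ u : ℝ, u = Real.sqrt x := ⟨_, rfl⟩
  have huu : u ^ 2 = x := by rw [hu]; exact Real.sq_sqrt hx0.le
  have hu0 : 0 < u := by rw [hu]; exact Real.sqrt_pos.2 hx0
  have hsu : s / 2 ≤ u := by
    rw [hu]
    exact Real.le_sqrt_of_sq_le (r14 hss hx)
  have hs2 : s ^ 2 = r := by rw [← hss]; ring
  have h := dec hs hsu (by rw [hs2]; exact hL) hL1
  rw [huu] at h
  rw [← hu]
  obtain ⟨l, hl⟩ : ∃ l : ℝ, l = Real.log (x + 2) := ⟨_, rfl⟩
  rw [← hl] at h ⊢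
  have hl0 : 0 ≤ l := by rw [hl]; exact Real.log_nonneg (by linarith)
  constructor
  · have h1 : (l * s) ^ 2 ≤ (5 * L * u) ^ 2 := pow_le_pow_left₀ (mul_nonneg hl0 hs.le) h 2
    have e1 : (l * s) ^ 2 = l ^ 2 * r := by rw [← hs2]; ring
    have e2 : (5 * L * u) ^ 2 = 25 * L ^ 2 * x := by rw [← huu]; ring
    rw [e1, e2] at h1
    have h2 : l ^ 2 * (25 * Ki * L ^ 2) ≤ l ^ 2 * r := by
      apply mul_le_mul_of_nonneg_left _ (sq_nonneg _)
      exact (mul_le_mul_of_nonneg_right hKi (sq_nonneg _)).trans hK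
    have h3 : 0 < 25 * L ^ 2 := by positivity
    have h4 : (25 * L ^ 2) * (Ki * l ^ 2) ≤ (25 * L ^ 2) * x := by
      have e3 : (25 * L ^ 2) * (Ki * l ^ 2) = l ^ 2 * (25 * Ki * L ^ 2) := by ring
      rw [e3]
      linarith
    exact le_of_mul_le_mul_left h4 h3
  · rw [← mul_div_assoc, div_le_div_iff₀ hu0 hs]
    have h5 := mul_le_mul_of_nonneg_left h hKi0
    calc Ki * l * s = Ki * (l * s) := by ring
      _ ≤ Ki * (5 * L * u) := h5
      _ = _ := by ring

/-- `X j / 2` and the base -/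
theorem low {A B L X0 X c c1 c2 h : ℝ} (hL2 : 1 / 4 ≤ L ^ 2) (hc : 0 ≤ c)
    (h1 : Real.exp (-(A * L ^ 2)) * c ≤ X0) (h2 : c1 * c2 ≤ Real.exp (8 * B * L ^ 2) * c)
    (hh : h ≤ 1 / 2) (hX : (1 - h) * X0 ≤ X) :
    Real.exp (-((3 + A + 8 * B) * L ^ 2)) * (c1 * c2) ≤ X := by
  have hX0 : 0 ≤ X0 := le_trans (mul_nonneg (Real.exp_pos _).le hc) h1
  have h3 : Real.exp (-((3 + A) * L ^ 2)) ≤ 1 / 2 * Real.exp (-(A * L ^ 2)) := by
    have h6 : (1 / 2 : ℝ) = Real.exp (-(Real.log 2)) := by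
      rw [Real.exp_neg, Real.exp_log (by norm_num)]
      norm_num
    rw [h6, ← Real.exp_add, Real.exp_le_exp]
    have := Real.log_two_lt_d9
    linarith
  calc Real.exp (-((3 + A + 8 * B) * L ^ 2)) * (c1 * c2)
      ≤ Real.exp (-((3 + A + 8 * B) * L ^ 2)) * (Real.exp (8 * B * L ^ 2) * c) := by gcongr
    _ = Real.exp (-((3 + A) * L ^ 2)) * c := by
        rw [← mul_assoc, ← Real.exp_add]
        congr 2
        ring
    _ ≤ (1 / 2 * Real.exp (-(A * L ^ 2))) * c := by gcongr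
    _ = 1 / 2 * (Real.exp (-(A * L ^ 2)) * c) := by ring
    _ ≤ 1 / 2 * X0 := by gcongr
    _ ≤ (1 - h) * X0 := mul_le_mul_of_nonneg_right (by linarith) hX0
    _ ≤ X := hX

theorem base {E L l X c1 c2 p : ℝ} (h : Real.exp (-(E * L ^ 2)) * (c1 * c2) ≤ X) (hE : 0 ≤ E)
    (hL : L ^ 2 ≤ 4 * l ^ 2) (hp : p ≤ c1) (hp0 : 0 ≤ p) (hc2 : 0 ≤ c2) :
    Real.exp (-(4 * E * l ^ 2)) * (p * c2) ≤ X := by
  refine le_trans ?_ h
  have h1 : Real.exp (-(4 * E * l ^ 2)) ≤ Real.exp (-(E * L ^ 2)) := by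
    rw [Real.exp_le_exp]
    have := mul_le_mul_of_nonneg_left hL hE
    linarith
  have h2 : 0 ≤ c1 := hp0.trans hp
  gcongr

theorem r22 {x r : ℝ} (hr : 4 ≤ r) (hx : r / 4 ≤ x) : r + 2 ≤ (x + 2) ^ 2 := by nlinarith

theorem r23 {r x : ℝ} (hr : 0 ≤ r) (hx : x ≤ 2 * r) : x + 2 ≤ (r + 2) ^ 2 := by nlinarith

theorem r24 {r : ℝ} (hr : 0 ≤ r) : (4 : ℝ) ≤ (r + 2) ^ 2 := by nlinarith

/-- lengths -/
theorem nat1 {k m m' j : ℕ} (hm : m = m' + 2 * j + 2) (h : 8 * (j + 1) ≤ min k m) :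
    min (k + 2 * j) m' ≤ 2 * min k m := by
  rcases le_total k m with h1 | h1
  · rw [min_eq_left h1] at h ⊢
    exact (min_le_left _ _).trans (by omega)
  · rw [min_eq_right h1] at h ⊢
    exact (min_le_right _ _).trans (by omega)

theorem chain (A : ℝ) (hA : 0 ≤ A) : ∃ K : ℝ, 1 ≤ K ∧ ∀ (R : Rel × Rel) (k m : ℕ) (r L : ℝ),
    r = ((min k m : ℕ) : ℝ) → L = Real.log (r + 2) → K * L ^ 2 ≤ r →
    Real.exp (-(A * L ^ 2)) * cc (k + m) ≤ NN R k m →
    ∀ j : ℕ, K * L * j ≤ Real.sqrt r →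
      2 * j ≤ m ∧ (NN R k m : ℝ) / 2 ≤ NN R (k + 2 * j) (m - 2 * j) := by
  obtain ⟨B, hB, hsup⟩ := sup
  obtain ⟨d, hd⟩ : ∃ d : ℝ, d = 4 * Real.log (H981.mu ^ 2 + 1) := ⟨_, rfl⟩
  have hmu := H981.one_le_mu
  have hmu0 : 0 < H981.mu := H981.mu_pos
  have hmu2 : 1 ≤ H981.mu ^ 2 := one_le_pow₀ hmu
  have hd0 : 0 ≤ d := by
    rw [hd]
    have := Real.log_nonneg (show 1 ≤ H981.mu ^ 2 + 1 by linarith)
    linarith
  obtain ⟨K2, hK2, h2⟩ := P2 (4 * (3 + A + 8 * B)) (by linarith)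
  obtain ⟨K3, hK3, h3⟩ := P1 K2 (by linarith)
  obtain ⟨K4, hK4, h4⟩ := P1 (4 * (3 + A + 8 * B + d)) (by linarith)
  obtain ⟨K, hK⟩ : ∃ K : ℝ, K = 16 + 25 * K2 + 25 * K3 + 25 * K4 + 25 * (K3 + K4) ^ 2 +
      20 * (K3 + K4) := ⟨_, rfl⟩
  have hsq : 0 ≤ (K3 + K4) ^ 2 := sq_nonneg _
  have hK16 : 16 ≤ K := by rw [hK]; linarith
  have hK252 : 25 * K2 ≤ K := by rw [hK]; linarith
  have hK253 : 25 * K3 ≤ K := by rw [hK]; linarith
  have hK254 : 25 * K4 ≤ K := by rw [hK]; linarith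
  have hKsq : 25 * (K3 + K4) ^ 2 ≤ K := by rw [hK]; linarith
  have hK20 : 20 * (K3 + K4) ≤ K := by rw [hK]; linarith
  refine ⟨K, by linarith, ?_⟩
  intro R k m r L hrd hL hr hX0
  have hr00 : 0 ≤ r := by rw [hrd]; exact Nat.cast_nonneg _
  have hrk : r ≤ k := by rw [hrd]; exact_mod_cast min_le_left k m
  have hrm : r ≤ m := by rw [hrd]; exact_mod_cast min_le_right k m
  have hL1 : 1 / 2 ≤ L := by rw [hL]; exact half_le_log _ (by linarith)
  have hL2 : 1 / 4 ≤ L ^ 2 := r3 hL1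
  have hL20 : 0 ≤ L ^ 2 := sq_nonneg _
  have hr4 : 4 ≤ r := r4 hK16 hL2 hr
  obtain ⟨s, hs⟩ : ∃ s : ℝ, s = Real.sqrt r := ⟨_, rfl⟩
  rw [← hs]
  have hss : s * s = r := by rw [hs]; exact Real.mul_self_sqrt hr00
  have hs0 : 0 ≤ s := by rw [hs]; exact Real.sqrt_nonneg _
  have hs2 : 2 ≤ s := r5 hs0 hss hr4
  have hsp : 0 < s := by linarith
  have hsr : s ≤ r := r6 hs2 hss
  obtain ⟨ε, hε⟩ : ∃ ε : ℝ, ε = 5 * (K3 + K4) * L / s := ⟨_, rfl⟩
  have hK34 : 0 ≤ (K3 + K4) * L := mul_nonneg (by linarith) (by linarith)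
  have hε0 : 0 ≤ ε := by
    rw [hε]
    apply div_nonneg _ hs0
    linarith
  have hε1 : ε ≤ 1 := by
    rw [hε, div_le_one hsp]
    refine Run7.h738.BV.le_of_sq ?_ hs0
    have e1 : (5 * (K3 + K4) * L) ^ 2 = 25 * (K3 + K4) ^ 2 * L ^ 2 := by ring
    have e2 : s ^ 2 = r := by rw [← hss]; ring
    rw [e1, e2]
    exact (mul_le_mul_of_nonneg_right hKsq hL20).trans hr
  have hKL : 8 ≤ K * L := r1 hK16 hL1
  have hj8 : ∀ j : ℕ, K * L * j ≤ s → 8 * (j : ℝ) ≤ s := by
    intro j hj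
    exact r2 hKL (Nat.cast_nonneg _) hj
  have hhalf : ∀ j : ℕ, K * L * j ≤ s → 2 * ε * j ≤ 1 / 2 := by
    intro j hj
    have hj0 : (0 : ℝ) ≤ j := Nat.cast_nonneg _
    have e : 2 * ε * j = (10 * (K3 + K4) * (L * j)) / s := by rw [hε]; ring
    rw [e, div_le_iff₀ hsp]
    have h5 := mul_le_mul_of_nonneg_right hK20 (mul_nonneg (show (0 : ℝ) ≤ L by linarith) hj0)
    have h6 : K * (L * j) ≤ s := by rw [← mul_assoc]; exact hj
    linarith
  have hc0 : 0 < cc (k + m) := cc_pos _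
  have hXn : (0 : ℝ) ≤ NN R k m := Nat.cast_nonneg _
  have main : ∀ j : ℕ, K * L * j ≤ s →
      (1 - 2 * ε * j) * (NN R k m : ℝ) ≤ NN R (k + 2 * j) (m - 2 * j) := by
    intro j
    induction j with
    | zero => intro _; simp
    | succ j ih =>
      intro hj
      have hj0 : (0 : ℝ) ≤ j := Nat.cast_nonneg _
      have hj' : K * L * j ≤ s := by
        push_cast at hj
        exact r15 hKL hj
      have ih := ih hj'
      have hh := hhalf j hj'
      have h8 := hj8 (j + 1) hj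
      push_cast at h8
      have hr8 : 8 * (j + 1) ≤ min k m := by
        have : ((8 * (j + 1) : ℕ) : ℝ) ≤ ((min k m : ℕ) : ℝ) := by
          rw [← hrd]
          push_cast
          linarith
        exact_mod_cast this
      have hm8 : 8 * (j + 1) ≤ m := hr8.trans (min_le_right _ _)
      obtain ⟨m', hm'⟩ : ∃ m', m = m' + 2 * j + 2 := ⟨m - 2 * j - 2, by omega⟩
      have hmin := nat1 hm' hr8
      obtain ⟨k', hk'⟩ : ∃ k', k' = k + 2 * j := ⟨_, rfl⟩
      rw [← hk'] at hmin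
      have e1 : m - 2 * j = m' + 2 := by omega
      have e2 : m - 2 * (j + 1) = m' := by omega
      have e3 : k + 2 * (j + 1) = k' + 2 := by omega
      have e4 : k + m = k' + m' + 2 := by omega
      rw [e1, ← hk'] at ih
      rw [e2, e3]
      have hmr : (m : ℝ) = m' + 2 * j + 2 := by exact_mod_cast hm'
      have hkr : (k' : ℝ) = k + 2 * j := by exact_mod_cast hk'
      have hm'r : r / 4 ≤ m' := by linarith
      have hk'r : r / 4 ≤ k' := by linarith
      -- the numbers of walks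
      have hcc : cc k' * cc m' ≤ Real.exp (8 * B * L ^ 2) * cc (k + m) := by
        have hlog : Real.log ((r + 2) ^ 2) = 2 * L := by
          rw [Real.log_pow, hL]
          norm_num
        have h5 := hsup k' m' ((r + 2) ^ 2) (r23 hr00 (by
          rw [hrd]
          exact_mod_cast hmin))
        have h6 := hsup (k' + m') 2 ((r + 2) ^ 2) (by
          have h7 : ((min (k' + m') 2 : ℕ) : ℝ) ≤ 2 := by exact_mod_cast min_le_right _ _
          have := r24 hr00
          linarith)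
        rw [hlog] at h5 h6
        have h7 : 1 ≤ cc 2 := hmu2.trans (low_sq 2)
        have h8 : cc (k' + m') ≤ Real.exp (B * (2 * L) ^ 2) * cc (k + m) := by
          rw [e4]
          refine le_trans ?_ h6
          have := mul_le_mul_of_nonneg_left h7 (cc_pos (k' + m')).le
          linarith
        calc cc k' * cc m' ≤ Real.exp (B * (2 * L) ^ 2) * cc (k' + m') := h5
          _ ≤ Real.exp (B * (2 * L) ^ 2) * (Real.exp (B * (2 * L) ^ 2) * cc (k + m)) := by gcongr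
          _ = Real.exp (8 * B * L ^ 2) * cc (k + m) := by
              rw [← mul_assoc, ← Real.exp_add]
              congr 2
              ring
      have hlow := low hL2 hc0.le hX0 hcc hh ih
      -- logarithms
      have hlm : L ^ 2 ≤ 4 * Real.log ((m' : ℝ) + 2) ^ 2 := by
        apply r12 (by linarith)
        have h5 : Real.log (r + 2) ≤ Real.log (((m' : ℝ) + 2) ^ 2) :=
          Real.log_le_log (by linarith) (r22 hr4 hm'r)
        rw [Real.log_pow] at h5
        rw [hL]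
        push_cast at h5
        exact h5
      have hlk : L ^ 2 ≤ 4 * Real.log ((k' : ℝ) + 2) ^ 2 := by
        apply r12 (by linarith)
        have h5 : Real.log (r + 2) ≤ Real.log (((k' : ℝ) + 2) ^ 2) :=
          Real.log_le_log (by linarith) (r22 hr4 hk'r)
        rw [Real.log_pow] at h5
        rw [hL]
        push_cast at h5
        exact h5
      obtain ⟨c2, -⟩ := dec2 hsp hss hL hL1 hm'r hr hK252 (by linarith)
      obtain ⟨c3, d3⟩ := dec2 hsp hss hL hL1 hm'r hr hK253 (by linarith)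
      obtain ⟨c4, d4⟩ := dec2 hsp hss hL hL1 hk'r hr hK254 (by linarith)
      -- from `X j` to `Z`
      have hX : Real.exp (-(4 * (3 + A + 8 * B) * Real.log ((m' : ℝ) + 2) ^ 2)) *
          (H981.mu ^ m' * cc k') ≤ NN (Rr R) (m' + 2) k' := by
        rw [NN_rev R k' (m' + 2)]
        rw [mul_comm (cc k')] at hlow
        exact base hlow (by linarith) hlm (low_sq m') (pow_pos hmu0 _).le (cc_pos k').le
      have hZ := h2 (Rr R) m' k' c2 hX
      have hP := h3 (Rr R) m' k' c3 hZ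
      rw [NN_rev R k' m', NN_rev R k' (m' + 2)] at hP
      rw [NN_rev R k' m'] at hZ
      have hZ0 : (0 : ℝ) < NN R k' m' :=
        lt_of_lt_of_le (mul_pos (Real.exp_pos _) (mul_pos (pow_pos hmu0 _) (cc_pos k'))) hZ
      have hd3 : 5 * K3 * L / s ≤ ε := by
        rw [hε]
        apply div_le_div_of_nonneg_right _ hs0
        have := mul_nonneg (show (0 : ℝ) ≤ K4 by linarith) (show (0 : ℝ) ≤ L by linarith)
        linarith
      have hd4 : 5 * K4 * L / s ≤ ε := by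
        rw [hε]
        apply div_le_div_of_nonneg_right _ hs0
        have := mul_nonneg (show (0 : ℝ) ≤ K3 by linarith) (show (0 : ℝ) ≤ L by linarith)
        linarith
      have hP' := (hP.trans d3).trans hd3
      have hp := (abs_le.1 hP').2
      have hp' : (NN R k' (m' + 2) : ℝ) ≤ (H981.mu ^ 2 + ε) * NN R k' m' := by
        rw [← div_le_iff₀ hZ0]
        linarith
      -- from `Z` to `X (j + 1)`
      have hZ2 : Real.exp (-((3 + A + 8 * B + d) * L ^ 2)) * (cc k' * cc m') ≤ NN R k' m' := by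
        have h5 : (NN R k' (m' + 2) : ℝ) ≤ (H981.mu ^ 2 + 1) * NN R k' m' :=
          hp'.trans (mul_le_mul_of_nonneg_right (by linarith) hZ0.le)
        have h6 : H981.mu ^ 2 + 1 ≤ Real.exp (d * L ^ 2) := by
          have h7 : Real.log (H981.mu ^ 2 + 1) ≤ d * L ^ 2 := by
            rw [hd]
            have h8 := Real.log_nonneg (show 1 ≤ H981.mu ^ 2 + 1 by linarith)
            have h9 := mul_le_mul_of_nonneg_left hL2 h8
            linarith
          calc H981.mu ^ 2 + 1 = Real.exp (Real.log (H981.mu ^ 2 + 1)) :=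
                (Real.exp_log (by positivity)).symm
            _ ≤ _ := Real.exp_le_exp.2 h7
        have h7 : (NN R k' (m' + 2) : ℝ) ≤ Real.exp (d * L ^ 2) * NN R k' m' :=
          h5.trans (mul_le_mul_of_nonneg_right h6 hZ0.le)
        have e5 : Real.exp (-((3 + A + 8 * B + d) * L ^ 2)) =
            Real.exp (-(d * L ^ 2)) * Real.exp (-((3 + A + 8 * B) * L ^ 2)) := by
          rw [← Real.exp_add]
          congr 1
          ring
        calc Real.exp (-((3 + A + 8 * B + d) * L ^ 2)) * (cc k' * cc m')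
            = Real.exp (-(d * L ^ 2)) *
                (Real.exp (-((3 + A + 8 * B) * L ^ 2)) * (cc k' * cc m')) := by rw [e5]; ring
          _ ≤ Real.exp (-(d * L ^ 2)) * (Real.exp (d * L ^ 2) * NN R k' m') := by
              apply mul_le_mul_of_nonneg_left _ (Real.exp_pos _).le
              exact hlow.trans h7
          _ = NN R k' m' := by
              rw [← mul_assoc, ← Real.exp_add, neg_add_cancel, Real.exp_zero, one_mul]
      have hQ := h4 R k' m' c4
        (base hZ2 (by linarith) hlk (low_sq k') (pow_pos hmu0 _).le (cc_pos m').le)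
      have hQ' := (hQ.trans d4).trans hd4
      have hq := (abs_le.1 hQ').1
      have hq' : (H981.mu ^ 2 - ε) * NN R k' m' ≤ (NN R (k' + 2) m' : ℝ) := by
        rw [← le_div_iff₀ hZ0]
        linarith
      have hX1 : (0 : ℝ) ≤ NN R (k' + 2) m' := Nat.cast_nonneg _
      push_cast
      rcases le_total 0 (1 - 2 * ε) with h5 | h5
      · calc (1 - 2 * ε * (j + 1)) * (NN R k m : ℝ)
            ≤ (1 - 2 * ε) * ((1 - 2 * ε * j) * NN R k m) := by
              have h6 : (1 - 2 * ε * (j + 1)) ≤ (1 - 2 * ε) * (1 - 2 * ε * j) := r8 hε0 hj0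
              rw [← mul_assoc]
              exact mul_le_mul_of_nonneg_right h6 hXn
          _ ≤ (1 - 2 * ε) * NN R k' (m' + 2) := mul_le_mul_of_nonneg_left ih h5
          _ ≤ (1 - 2 * ε) * ((H981.mu ^ 2 + ε) * NN R k' m') := mul_le_mul_of_nonneg_left hp' h5
          _ ≤ (H981.mu ^ 2 - ε) * NN R k' m' := by
              rw [← mul_assoc]
              exact mul_le_mul_of_nonneg_right (r9 hε0 hmu2) hZ0.le
          _ ≤ _ := hq'
      · refine le_trans ?_ hX1
        exact mul_nonpos_of_nonpos_of_nonneg (r10 hε0 hj0 h5) hXn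
  intro j hj
  have h8 := hj8 j hj
  have hj0 : (0 : ℝ) ≤ j := Nat.cast_nonneg _
  refine ⟨?_, ?_⟩
  · have : ((2 * j : ℕ) : ℝ) ≤ m := by push_cast; linarith
    exact_mod_cast this
  · refine le_trans ?_ (main j hj)
    have hh := hhalf j hj
    have h9 : (1 / 2 : ℝ) * NN R k m ≤ (1 - 2 * ε * j) * NN R k m :=
      mul_le_mul_of_nonneg_right (by linarith) hXn
    linarith

theorem NN_le_cn (R : Rel × Rel) (k m : ℕ) : NN R k m ≤ cn (k + m) := by
  rw [NN_eq R rfl (show k < k + m + 1 by omega), ← card_W]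
  exact card_filter_le _ _

theorem NN_le_mk (R : Rel × Rel) (k m : ℕ) : NN R k m ≤ ∑ ω ∈ W (k + m), mk R ω := by
  rw [← sum_NN]
  have h := single_le_sum (f := fun i => NN R i (k + m - i)) (s := range (k + m + 1))
    (fun _ _ => Nat.zero_le _) (mem_range.2 (show k < k + m + 1 by omega))
  have e : k + m - k = m := by omega
  rw [e] at h
  exact h

/-- the bound -/
theorem bound (A : ℝ) (hA : 0 ≤ A) : ∃ K : ℝ, 1 ≤ K ∧ ∀ (R : Rel × Rel) (k m : ℕ) (D : ℝ),
    Real.exp (-(A * Real.log (((min k m : ℕ) : ℝ) + 2) ^ 2)) * cn (k + m) ≤ D →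
    ((∑ ω ∈ W (k + m), mk R ω : ℕ) : ℝ) ≤ D →
    (NN R k m : ℝ) ≤ K * (Real.log ((min k m : ℕ) + 2) / Real.sqrt ((min k m : ℕ) + 1)) * D := by
  obtain ⟨K, hK, hc⟩ := chain (1 + A) (by linarith)
  refine ⟨8 * K + 4, by linarith, ?_⟩
  intro R k m D hD hsum
  obtain ⟨r, hr⟩ : ∃ r : ℝ, r = ((min k m : ℕ) : ℝ) := ⟨_, rfl⟩
  have hr0 : 0 ≤ r := by rw [hr]; exact Nat.cast_nonneg _
  obtain ⟨L, hL⟩ : ∃ L : ℝ, L = Real.log (r + 2) := ⟨_, rfl⟩
  have hL1 : 1 / 2 ≤ L := by rw [hL]; exact half_le_log _ (by linarith)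
  have hL2 : 1 / 4 ≤ L ^ 2 := r3 hL1
  rw [← hr, ← hL] at hD ⊢
  obtain ⟨q, hq⟩ : ∃ q : ℝ, q = Real.sqrt (r + 1) := ⟨_, rfl⟩
  rw [← hq]
  have hq0 : 0 < q := by rw [hq]; exact Real.sqrt_pos.2 (by linarith)
  have hqq : q * q = 1 + r := by rw [hq, Real.mul_self_sqrt (by linarith)]; ring
  have hc0 : (0 : ℝ) ≤ cn (k + m) := Nat.cast_nonneg _
  have hD0 : 0 ≤ D := le_trans (mul_nonneg (Real.exp_pos _).le hc0) hD
  have hNc : (NN R k m : ℝ) ≤ D := by
    refine le_trans ?_ hsum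
    exact_mod_cast NN_le_mk R k m
  have hLq : 0 ≤ L / q := div_nonneg (by linarith) hq0.le
  -- enough: `t ≤ K' L / q`
  have fin : ∀ t : ℝ, t * q ≤ (8 * K + 4) * L → (NN R k m : ℝ) ≤ t * D →
      (NN R k m : ℝ) ≤ (8 * K + 4) * (L / q) * D := by
    intro t ht h
    refine h.trans (mul_le_mul_of_nonneg_right ?_ hD0)
    have h1 : t ≤ (8 * K + 4) * L / q := by
      rw [le_div_iff₀ hq0]
      exact ht
    rw [mul_div_assoc] at h1
    exact h1
  rcases lt_or_ge r (K * L ^ 2) with h1 | h1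
  · refine fin 1 ?_ (by linarith)
    rw [one_mul]
    refine Run7.h738.BV.le_of_sq ?_ (mul_nonneg (by linarith) (by linarith))
    have e : q ^ 2 = 1 + r := by rw [← hqq]; ring
    have e2 : ((8 * K + 4) * L) ^ 2 = (8 * K + 4) ^ 2 * L ^ 2 := by ring
    rw [e, e2]
    have h3 : K + 4 ≤ (8 * K + 4) ^ 2 := r17 hK
    have h4 : (K + 4) * L ^ 2 ≤ (8 * K + 4) ^ 2 * L ^ 2 := mul_le_mul_of_nonneg_right h3 (by linarith)
    have e3 : (K + 4) * L ^ 2 = K * L ^ 2 + 4 * L ^ 2 := by ring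
    rw [e3] at h4
    linarith
  · rcases lt_or_ge (NN R k m : ℝ) (Real.exp (-(L ^ 2)) * D) with h2 | h2
    · refine fin (Real.exp (-(L ^ 2))) ?_ h2.le
      have h3 : q ≤ Real.exp (L / 2) := by
        refine Run7.h738.BV.le_of_sq ?_ (Real.exp_pos _).le
        have e : q ^ 2 = 1 + r := by rw [← hqq]; ring
        have e2 : Real.exp (L / 2) ^ 2 = r + 2 := by
          rw [← Real.exp_nat_mul]
          have : ((2 : ℕ) : ℝ) * (L / 2) = L := by push_cast; ring
          rw [this, hL, Real.exp_log (by linarith)]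
        rw [e, e2]
        linarith
      calc Real.exp (-(L ^ 2)) * q ≤ Real.exp (-(L ^ 2)) * Real.exp (L / 2) := by gcongr
        _ = Real.exp (-(L ^ 2) + L / 2) := (Real.exp_add _ _).symm
        _ ≤ Real.exp 0 := Real.exp_le_exp.2 (r18 hL1)
        _ = 1 := Real.exp_zero
        _ ≤ _ := r19 hK hL1
    · have h2' : Real.exp (-((1 + A) * L ^ 2)) * cc (k + m) ≤ NN R k m := by
        rw [← cc_cn]
        refine le_trans ?_ h2
        have e : Real.exp (-((1 + A) * L ^ 2)) = Real.exp (-(L ^ 2)) * Real.exp (-(A * L ^ 2)) := by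
          rw [← Real.exp_add]
          congr 1
          ring
        rw [e, mul_assoc]
        exact mul_le_mul_of_nonneg_left hD (Real.exp_pos _).le
      have hch := hc R k m r L hr hL h1 h2'
      obtain ⟨s, hs⟩ : ∃ s : ℝ, s = Real.sqrt r := ⟨_, rfl⟩
      rw [← hs] at hch
      have hss : s * s = r := by rw [hs]; exact Real.mul_self_sqrt hr0
      have hs0 : 0 ≤ s := by rw [hs]; exact Real.sqrt_nonneg _
      have hKL : 0 < K * L := mul_pos (by linarith) (by linarith)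
      have hKr : 1 / 4 ≤ r := r20 hK hL2 h1
      obtain ⟨J, hJ⟩ : ∃ J : ℕ, J = ⌊s / (K * L)⌋₊ := ⟨_, rfl⟩
      have hJ1 : (J : ℝ) ≤ s / (K * L) := by rw [hJ]; exact Nat.floor_le (div_nonneg hs0 hKL.le)
      have hJ2 : s / (K * L) < J + 1 := by rw [hJ]; exact Nat.lt_floor_add_one _
      have hj : ∀ j ∈ range (J + 1), K * L * j ≤ s := by
        intro j hj
        have h3 : (j : ℝ) ≤ J := by
          have := mem_range.1 hj
          exact_mod_cast (by omega : j ≤ J)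
        have h4 : (j : ℝ) ≤ s / (K * L) := h3.trans hJ1
        rw [le_div_iff₀ hKL] at h4
        linarith
      have h5 : ((J : ℝ) + 1) * ((NN R k m : ℝ) / 2) ≤
          ∑ j ∈ range (J + 1), (NN R (k + 2 * j) (m - 2 * j) : ℝ) := by
        have h6 : ∑ _j ∈ range (J + 1), (NN R k m : ℝ) / 2 ≤
            ∑ j ∈ range (J + 1), (NN R (k + 2 * j) (m - 2 * j) : ℝ) :=
          sum_le_sum fun j hj' => (hch j (hj j hj')).2
        rw [sum_const, card_range, nsmul_eq_mul] at h6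
        push_cast at h6
        exact h6
      have h6 : ∑ j ∈ range (J + 1), NN R (k + 2 * j) (m - 2 * j) ≤
          ∑ i ∈ range (k + m + 1), NN R i (k + m - i) := by
        have h7 : ∑ j ∈ range (J + 1), NN R (k + 2 * j) (m - 2 * j) =
            ∑ j ∈ range (J + 1), NN R (k + 2 * j) (k + m - (k + 2 * j)) := by
          refine sum_congr rfl fun j hj' => ?_
          have h8 := (hch j (hj j hj')).1
          congr 1
          omega
        rw [h7, ← sum_image (g := fun j => k + 2 * j) (f := fun i => NN R i (k + m - i))]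
        · refine sum_le_sum_of_subset fun i hi => ?_
          rw [mem_image] at hi
          obtain ⟨j, hj', rfl⟩ := hi
          have h8 := (hch j (hj j hj')).1
          rw [mem_range]
          omega
        · intro a _ b _ hab
          simp only at hab
          omega
      rw [sum_NN] at h6
      have h7 : ∑ j ∈ range (J + 1), (NN R (k + 2 * j) (m - 2 * j) : ℝ) ≤ D := by
        refine le_trans ?_ hsum
        exact_mod_cast h6
      have h8 : s / (K * L) * ((NN R k m : ℝ) / 2) ≤ 1 * D := by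
        rw [one_mul]
        refine le_trans (mul_le_mul_of_nonneg_right hJ2.le ?_) (h5.trans h7)
        have : (0 : ℝ) ≤ NN R k m := Nat.cast_nonneg _
        linarith
      have h9 : q ≤ 3 * s := by
        refine Run7.h738.BV.le_of_sq ?_ (by linarith)
        have e : q ^ 2 = 1 + r := by rw [← hqq]; ring
        have e2 : (3 * s) ^ 2 = 9 * r := by rw [← hss]; ring
        rw [e, e2]
        linarith
      have h10 := r21 hKL (Nat.cast_nonneg _) (by linarith) (by linarith) h8 h9 hq0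
      rw [mul_one] at h10
      exact h10

end

end Pool.Agent.Run7.h710.MT
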