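import Pool.Agent.Run7.h710.MT.F

/-!
# Corollaries: antisymmetric relations, steep functions
-/

set_option autoImplicit false

namespace Pool.Agent.Run7.h710.MT

open Finset Pool.Agent.H976R2
open Pool.Agent.TH546.SAW (W mem_W card_W)
open Pool.Agent.W840.CT (cn)
open Run7.h738.BV (Steep nS steep_tail Kb Kb_gt)
open scoped Classical

noncomputable section

theorem mk_le_one {R : Rel × Rel}
    (hR : ∀ x c v, R.2 x c v → R.1 x v c → c = v) {N : ℕ} {ω : Fin (N + 1) → ℤ × ℤ} (hω : ω ∈ W N) :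
    mk R ω ≤ 1 := by
  unfold mk
  rw [card_le_one]
  intro k1 h1 k2 h2
  rw [mem_filter] at h1 h2
  rcases le_total k1 k2 with h | h
  · exact (mem_W.1 hω).2.2 (hR _ _ _ ((h1.2 k2).2 h) ((h2.2 k1).1 h))
  · exact ((mem_W.1 hω).2.2 (hR _ _ _ ((h2.2 k1).2 h) ((h1.2 k2).1 h))).symm

/-- antisymmetric relations -/
theorem anti : ∃ K : ℝ, 1 ≤ K ∧ ∀ R : Rel × Rel,
    (∀ x c v, R.2 x c v → R.1 x v c → c = v) → ∀ k m : ℕ,
    (NN R k m : ℝ) ≤
      K * (Real.log ((min k m : ℕ) + 2) / Real.sqrt ((min k m : ℕ) + 1)) * cn (k + m) := by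
  obtain ⟨K, hK, h⟩ := bound 0 le_rfl
  refine ⟨K, hK, fun R hR k m => ?_⟩
  exact h R k m (cn (k + m)) (by
    rw [zero_mul, neg_zero, Real.exp_zero, one_mul]) (by
    have h2 : ∑ ω ∈ W (k + m), mk R ω ≤ ∑ _ω ∈ W (k + m), 1 :=
      sum_le_sum fun ω hω => mk_le_one hR hω
    rw [sum_const, smul_eq_mul, mul_one, card_W] at h2
    exact_mod_cast h2)

/-- one relation for all sites -/
def dg (Q : Rel) : Rel × Rel := (Q, Q)

theorem Mk_dg {Q : Rel} {N : ℕ} {ω : Fin (N + 1) → ℤ × ℤ} {k : Fin (N + 1)} :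
    Mk (dg Q) ω k ↔ ∀ j, Q (ω (Fin.last N)) (ω k) (ω j) := by
  unfold Mk dg
  constructor
  · intro h j
    rcases le_total j k with h1 | h1
    · exact (h j).1 h1
    · exact (h j).2 h1
  · intro h j
    exact ⟨fun _ => h j, fun _ => h j⟩

theorem mk_nS (h : ℤ × ℤ → ℝ) (y : ℝ) {N : ℕ} (ω : Fin (N + 1) → ℤ × ℤ) :
    mk (dg (fun _ c v => h v ≤ h c + y)) ω = nS h y ω := by
  unfold mk nS
  congr 1
  ext k
  rw [mem_filter, mem_filter, Mk_dg]

/-- steep functions -/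
theorem steep : ∃ K : ℝ, 1 ≤ K ∧ ∀ h : ℤ × ℤ → ℝ, Steep h → ∀ y : ℝ, 0 ≤ y → ∀ k m : ℕ,
    (NN (dg (fun _ c v => h v ≤ h c + y)) k m : ℝ) ≤
      K ^ (1 + y) * (Real.log ((min k m : ℕ) + 2) / Real.sqrt ((min k m : ℕ) + 1)) * cn (k + m) := by
  obtain ⟨K, hK, hb⟩ := bound 0 le_rfl
  have hKb : 1 ≤ Kb ^ 3 := one_le_pow₀ Kb_gt.le
  have hKb0 : 0 ≤ Kb ^ 3 := by linarith
  have hK30 : 0 ≤ 3 * K := by linarith
  refine ⟨3 * K * Kb ^ 3, by nlinarith, fun h H y hy k m => ?_⟩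
  have hB1 : 1 ≤ (Kb ^ 3) ^ (1 + y) := Real.one_le_rpow hKb (by linarith)
  have hsum : ((∑ ω ∈ W (k + m), mk (dg (fun _ c v => h v ≤ h c + y)) ω : ℕ) : ℝ) ≤
      (3 * (Kb ^ 3) ^ (1 + y)) * cn (k + m) := by
    have h1 := Pool.Agent.Run7.h710.TL.tail_sum (W (k + m)) (fun ω => (nS h y ω : ℝ))
      ((Kb ^ 3) ^ (1 + y)) (cn (k + m)) hB1 (Nat.cast_nonneg _) (k + m + 1) (by
        intro ω _
        have h2 : nS h y ω ≤ k + m + 1 := by
          unfold nS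
          refine (card_filter_le _ _).trans ?_
          rw [card_univ, Fintype.card_fin]
        exact_mod_cast h2) (by
        intro x hx
        exact steep_tail H (k + m) hy hx) 0 le_rfl (W (k + m)) (subset_refl _)
    rw [add_zero, mul_one, neg_zero, Real.exp_zero, one_mul, card_W] at h1
    have e : ((∑ ω ∈ W (k + m), mk (dg (fun _ c v => h v ≤ h c + y)) ω : ℕ) : ℝ) =
        ∑ ω ∈ W (k + m), (nS h y ω : ℝ) := by
      push_cast
      exact sum_congr rfl fun ω _ => by rw [mk_nS]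
    rw [e]
    linarith
  have hcn : (0 : ℝ) ≤ cn (k + m) := Nat.cast_nonneg _
  have h7 := hb (dg (fun _ c v => h v ≤ h c + y)) k m ((3 * (Kb ^ 3) ^ (1 + y)) * cn (k + m)) (by
    rw [zero_mul, neg_zero, Real.exp_zero]
    exact mul_le_mul_of_nonneg_right (by linarith) hcn) hsum
  refine h7.trans ?_
  have h0 : 0 ≤ Real.log (((min k m : ℕ) : ℝ) + 2) / Real.sqrt ((min k m : ℕ) + 1) := by
    apply div_nonneg _ (Real.sqrt_nonneg _)
    apply Real.log_nonneg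
    have h1 : (0 : ℝ) ≤ ((min k m : ℕ) : ℝ) := Nat.cast_nonneg _
    linarith
  have h3 : 3 * K ≤ (3 * K) ^ (1 + y) := by
    calc 3 * K = (3 * K) ^ (1 : ℝ) := (Real.rpow_one _).symm
      _ ≤ _ := Real.rpow_le_rpow_of_exponent_le (by linarith) (by linarith)
  have h8 : K * (3 * (Kb ^ 3) ^ (1 + y)) ≤ (3 * K * Kb ^ 3) ^ (1 + y) := by
    calc K * (3 * (Kb ^ 3) ^ (1 + y)) = (3 * K) * (Kb ^ 3) ^ (1 + y) := by ring
      _ ≤ (3 * K) ^ (1 + y) * (Kb ^ 3) ^ (1 + y) := by gcongr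
      _ = _ := (Real.mul_rpow hK30 hKb0).symm
  have e : K * (Real.log (((min k m : ℕ) : ℝ) + 2) / Real.sqrt ((min k m : ℕ) + 1)) *
      ((3 * (Kb ^ 3) ^ (1 + y)) * cn (k + m)) = K * (3 * (Kb ^ 3) ^ (1 + y)) *
      (Real.log (((min k m : ℕ) : ℝ) + 2) / Real.sqrt ((min k m : ℕ) + 1)) * cn (k + m) := by ring
  rw [e]
  apply mul_le_mul_of_nonneg_right _ hcn
  exact mul_le_mul_of_nonneg_right h8 h0

end

end Pool.Agent.Run7.h710.MT
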