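import Pool.Agent.Run7.h710.MT.Y

/-!
# Regularity of the numbers of walks with a marked maximal site
-/

set_option autoImplicit false

namespace Pool.Agent.Run7.h710.MT

open Finset TH966.AK H726.GB Pool.Agent.H976R2 Filter
open scoped Classical

noncomputable section

theorem mu_ge : 2.43 ≤ H981.mu := by
  by_contra hcon
  push Not at hcon
  obtain ⟨c, hc, hlow⟩ := Pool.Agent.H976R2.Low.SW_card_lower
  have hmu := H981.mu_pos
  set r : ℝ := (H981.mu + 2.43) / 2 with hr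
  have hr1 : H981.mu < r := by rw [hr]; linarith
  have hr2 : r < 2.43 := by rw [hr]; linarith
  have hr0 : 0 < r := hmu.trans hr1
  have h1 := H981.eventually_le hr1
  have hq0 : 0 ≤ r / 2.43 := by positivity
  have hq1 : r / 2.43 < 1 := by rw [div_lt_one (by norm_num)]; exact hr2
  have h2 := tendsto_pow_atTop_nhds_zero_of_lt_one hq0 hq1
  have h3 := h2.eventually (gt_mem_nhds hc)
  obtain ⟨n, hn1, hn2⟩ := (h1.and h3).exists
  have e : H981.cr' n = ((SW n).card : ℝ) := by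
    rw [H981.cr'_eq, ← ncard_saw, ← Nat.card_coe_set_eq]
    rfl
  rw [e] at hn1
  have h4 := (hlow n).trans hn1
  rw [div_pow, div_lt_iff₀ (by positivity)] at hn2
  linarith

theorem up_all : ∃ B K1 : ℝ, 1 ≤ B ∧ 0 ≤ K1 ∧ ∀ n : ℕ,
    ((SW n).card : ℝ) ≤ B * H981.mu ^ n * Real.exp (K1 * Real.log (n + 2) ^ 2) := by
  obtain ⟨K1, hK1, h⟩ := growth_sq
  have hc0 : (0 : ℝ) ≤ ((SW 0).card : ℝ) := Nat.cast_nonneg _
  have hc1 : (0 : ℝ) ≤ ((SW 1).card : ℝ) := Nat.cast_nonneg _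
  obtain ⟨B, hB⟩ : ∃ B : ℝ, B = 1 + ((SW 0).card : ℝ) + ((SW 1).card : ℝ) := ⟨_, rfl⟩
  have hB1 : 1 ≤ B := by linarith
  refine ⟨B, K1, hB1, hK1, fun n => ?_⟩
  have hmu := H981.one_le_mu
  have he : 1 ≤ Real.exp (K1 * Real.log (n + 2) ^ 2) := Real.one_le_exp (by positivity)
  have hm : 1 ≤ H981.mu ^ n := one_le_pow₀ hmu
  rcases Nat.lt_or_ge n 2 with hn | hn
  · have h1 : ((SW n).card : ℝ) ≤ B := by
      have : n = 0 ∨ n = 1 := by omega
      rcases this with rfl | rfl <;> linarith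
    calc ((SW n).card : ℝ) ≤ B * 1 * 1 := by linarith
      _ ≤ _ := by gcongr
  · refine (h n hn).trans ?_
    have hn' : (2 : ℝ) ≤ n := by exact_mod_cast hn
    have h2 : Real.log n ≤ Real.log (n + 2) := Real.log_le_log (by linarith) (by linarith)
    have h3 : 0 ≤ Real.log (n : ℝ) := Real.log_nonneg (by linarith)
    calc H981.mu ^ n * Real.exp (K1 * Real.log n ^ 2) ≤
        H981.mu ^ n * Real.exp (K1 * Real.log (n + 2) ^ 2) := by gcongr
      _ = 1 * H981.mu ^ n * Real.exp (K1 * Real.log (n + 2) ^ 2) := by ring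
      _ ≤ _ := by gcongr

/-- the number of the words with `n + m` letters, all sites of which are allowed -/
def NN (R : Rel × Rel) (n m : ℕ) : ℕ := ((SW (n + m)).filter (Mx R m)).card

variable {R : Rel × Rel} {m : ℕ}

theorem af_one (n : ℕ) : (Ys R m).af (fun _ => (1 : ℝ)) n = NN R n m := by
  show ∑ _w ∈ (SW (n + m)).filter (Mx R m), (1 : ℝ) = _
  rw [sum_const, nsmul_eq_mul, mul_one]
  rfl

theorem lt_take (w : List Dir) {n j : ℕ} (hj : j < n) : lt (w.take n) j = lt w j := by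
  unfold lt
  rw [List.getD_eq_getElem?_getD, List.getD_eq_getElem?_getD, List.getElem?_take_of_lt hj]

theorem poor (n : ℕ) (hn : 1 ≤ n) :
    (((Ys R m).K n).filter (fun w => 2001 * ((Ys R m).B w).card ≤ n)).card ≤
      (few n).card * (SW m).card := by
  rw [← card_product]
  apply card_le_card_of_injOn (fun w => (w.take n, w.drop n))
  · intro w hw
    rw [mem_coe, mem_filter] at hw
    obtain ⟨hw, hb⟩ := hw
    obtain ⟨hlen, hsaw⟩ := mem_SW.mp (mem_filter.1 hw).1
    have hsaw' : Saw (w.take n ++ w.drop n) := by rw [List.take_append_drop]; exact hsaw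
    rw [mem_coe, mem_product]
    constructor
    · show w.take n ∈ few n
      unfold few
      rw [mem_filter, mem_SW]
      refine ⟨⟨by rw [List.length_take]; omega, hsaw'.left⟩, ?_⟩
      have h1 : bc (w.take n) ≤ ((Ys R m).B w).card := by
        have e1 := card_bmp_filter (w := w) (fun j => j + 2 + m < w.length)
        show (bumps (w.take n)).card ≤ ((bmp w).filter (fun p => p.1 + 2 + m < w.length)).card
        rw [e1]
        refine card_le_card fun j hj => ?_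
        rw [mem_bumps] at hj
        obtain ⟨h1, h2, h3⟩ := hj
        have h4 : (w.take n).length = n := by rw [List.length_take]; omega
        rw [h4] at h1
        rw [lt_take w h1, lt_take w (by omega)] at h2
        rw [lt_take w (by omega), lt_take w (by omega)] at h3
        exact mem_filter.2 ⟨mem_bumps.2 ⟨by omega, h2, h3⟩, by omega⟩
      have h2 : 2000 * bc (w.take n) < n := by omega
      have h3 : (2000 * bc (w.take n) : ℝ) < n := by exact_mod_cast h2
      rw [lt_div_iff₀ (by norm_num)]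
      linarith
    · show w.drop n ∈ SW m
      exact mem_SW.2 ⟨by rw [List.length_drop]; omega, hsaw'.right⟩
  · intro w _ w' _ h
    simp only [Prod.mk.injEq] at h
    rw [← List.take_append_drop n w, ← List.take_append_drop n w', h.1, h.2]

/-- `L ≥ 1 / 2` -/
theorem half_le_log (x : ℝ) (hx : 2 ≤ x) : 1 / 2 ≤ Real.log x := by
  have h1 : Real.log 2 ≤ Real.log x := Real.log_le_log (by norm_num) hx
  have h2 := Real.log_two_gt_d9
  linarith

theorem small (A : ℝ) (hA : 0 ≤ A) : ∃ K : ℝ, 1 ≤ K ∧ ∀ n : ℕ,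
    K * Real.log (n + 2) ^ 2 ≤ n → ∀ n' : ℕ, (n' = n ∨ n' = n + 2) →
      ((few n').card : ℝ) * (2 * (n : ℝ) ^ 3) ≤
        Real.exp (-(A * Real.log (n + 2) ^ 2)) * H981.mu ^ n := by
  obtain ⟨Cf, hCf, hfew⟩ := Few.few_card
  obtain ⟨D, hD⟩ : ∃ D : ℝ, D = 12 * Cf := ⟨_, rfl⟩
  have hD0 : 0 < D := by rw [hD]; positivity
  obtain ⟨δ, hδ⟩ : ∃ δ : ℝ, δ = Real.log (2.43 / 2.428) := ⟨_, rfl⟩
  have hδ0 : 0 < δ := by rw [hδ]; exact Real.log_pos (by norm_num)
  obtain ⟨E, hE⟩ : ∃ E : ℝ, E = 4 * |Real.log D| + 6 + A := ⟨_, rfl⟩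
  have hE0 : 0 < E := by rw [hE]; positivity
  refine ⟨E / δ + 1, by
    have : 0 < E / δ := by positivity
    linarith, fun n hn n' hn' => ?_⟩
  have hnm : (2 : ℝ) ≤ (n : ℝ) + 2 := by
    have q1 : (0 : ℝ) ≤ n := Nat.cast_nonneg _
    linarith
  have hL := half_le_log _ hnm
  set L := Real.log ((n : ℝ) + 2) with hLd
  have hL2 : 1 / 4 ≤ L ^ 2 := by nlinarith
  have hmu := mu_ge
  have hmu0 : 0 < H981.mu := H981.mu_pos
  have h1 : ((few n').card : ℝ) ≤ 6 * Cf * 2.428 ^ n := by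
    refine (hfew n').trans ?_
    have h0 : (0 : ℝ) < 2.428 ^ n := by positivity
    rcases hn' with rfl | rfl
    · nlinarith
    · rw [pow_add]
      have : Cf * (2.428 ^ n * 2.428 ^ 2) = (2.428 ^ 2) * Cf * (2.428 : ℝ) ^ n := by ring
      rw [this]
      have h6 : (2.428 : ℝ) ^ 2 ≤ 6 := by norm_num
      gcongr
  have h3 : (n : ℝ) ≤ Real.exp L := by
    rw [hLd, Real.exp_log (by positivity)]
    linarith
  have h4 : (n : ℝ) ^ 3 ≤ Real.exp (6 * L ^ 2) := by
    calc (n : ℝ) ^ 3 ≤ Real.exp L ^ 3 := by gcongr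
      _ = Real.exp (3 * L) := by rw [← Real.exp_nat_mul]; norm_num
      _ ≤ _ := Real.exp_le_exp.2 (by nlinarith)
  have h5 : D ≤ Real.exp (4 * |Real.log D| * L ^ 2) := by
    calc D = Real.exp (Real.log D) := (Real.exp_log hD0).symm
      _ ≤ _ := Real.exp_le_exp.2 (by
        have h6 := le_abs_self (Real.log D)
        have h7 := abs_nonneg (Real.log D)
        nlinarith)
  have h6 : Real.exp (E * L ^ 2) ≤ (H981.mu / 2.428) ^ n := by
    calc Real.exp (E * L ^ 2) ≤ Real.exp (δ * n) := by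
          rw [Real.exp_le_exp]
          have h7 : E / δ * L ^ 2 ≤ n := by nlinarith [sq_nonneg L]
          calc E * L ^ 2 = δ * (E / δ * L ^ 2) := by field_simp
            _ ≤ δ * n := mul_le_mul_of_nonneg_left h7 hδ0.le
      _ = (2.43 / 2.428) ^ n := by
          rw [mul_comm, Real.exp_nat_mul, hδ, Real.exp_log (by norm_num)]
      _ ≤ _ := by gcongr
  have h7 : (0 : ℝ) < 2.428 ^ n := by positivity
  calc ((few n').card : ℝ) * (2 * (n : ℝ) ^ 3)
      ≤ (6 * Cf * 2.428 ^ n) * (2 * Real.exp (6 * L ^ 2)) := by gcongr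
    _ = D * Real.exp (6 * L ^ 2) * 2.428 ^ n := by
        rw [hD]; ring
    _ ≤ Real.exp (4 * |Real.log D| * L ^ 2) * Real.exp (6 * L ^ 2) * 2.428 ^ n := by gcongr
    _ = Real.exp (-(A * L ^ 2)) * Real.exp (E * L ^ 2) * 2.428 ^ n := by
        rw [← Real.exp_add, ← Real.exp_add, hE]
        ring_nf
    _ ≤ Real.exp (-(A * L ^ 2)) * (H981.mu / 2.428) ^ n * 2.428 ^ n := by gcongr
    _ = Real.exp (-(A * L ^ 2)) * H981.mu ^ n := by
        rw [div_pow]
        field_simp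

theorem NN_le (R : Rel × Rel) (n m : ℕ) : NN R n m ≤ (SW (n + m)).card :=
  card_filter_le _ _

theorem SW_mul (n m : ℕ) : (SW (n + m)).card ≤ (SW n).card * (SW m).card := by
  rw [← card_product]
  apply card_le_card_of_injOn (fun w => (w.take n, w.drop n))
  · intro w hw
    obtain ⟨hlen, hsaw⟩ := mem_SW.mp (mem_coe.1 hw)
    have hsaw' : Saw (w.take n ++ w.drop n) := by rw [List.take_append_drop]; exact hsaw
    rw [mem_coe, mem_product]
    exact ⟨mem_SW.2 ⟨by rw [List.length_take]; omega, hsaw'.left⟩,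
      mem_SW.2 ⟨by rw [List.length_drop]; omega, hsaw'.right⟩⟩
  · intro w _ w' _ h
    simp only [Prod.mk.injEq] at h
    rw [← List.take_append_drop n w, ← List.take_append_drop n w', h.1, h.2]

/-- the number of `m`-step walks -/
def cc (m : ℕ) : ℝ := (SW m).card

theorem cc_pos (m : ℕ) : 0 < cc m := lt_of_lt_of_le (pow_pos H981.mu_pos m) (low_sq m)

/-- the ratios -/
theorem P1 (A : ℝ) (hA : 0 ≤ A) : ∃ K : ℝ, 1 ≤ K ∧ ∀ (R : Rel × Rel) (n m : ℕ),
    K * Real.log (n + 2) ^ 2 ≤ n →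
    Real.exp (-(A * Real.log (n + 2) ^ 2)) * (H981.mu ^ n * cc m) ≤ NN R n m →
      |(NN R (n + 2) m : ℝ) / NN R n m - H981.mu ^ 2| ≤
        K * (Real.log (n + 2) / Real.sqrt n) := by
  obtain ⟨B, K1, hB, hK1, hup⟩ := up_all
  obtain ⟨K0, hK0, hsmall⟩ := small A hA
  obtain ⟨Q, hQ, hratio⟩ := ratio (List Dir) (ℕ × Dir) H981.one_le_mu 40 2 (by norm_num) 2001
  have hlB : 0 ≤ Real.log B := Real.log_nonneg hB
  obtain ⟨K2, hK2⟩ : ∃ K2 : ℝ, K2 = 4 * Real.log B + 4 * K1 + A + 6 := ⟨_, rfl⟩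
  have hK20 : 0 < K2 := by rw [hK2]; positivity
  refine ⟨K0 + Q * Real.sqrt K2 + 4 * (2 * 40 * 2001), by
    have : 0 ≤ Q * Real.sqrt K2 := by positivity
    linarith, fun R n m hn hNN => ?_⟩
  have hnm : (2 : ℝ) ≤ (n : ℝ) + 2 := by
    have q1 : (0 : ℝ) ≤ n := Nat.cast_nonneg _
    linarith
  have hL := half_le_log _ hnm
  set L := Real.log ((n : ℝ) + 2) with hLd
  have hL2 : 1 / 4 ≤ L ^ 2 := by nlinarith
  have hL20 : 0 ≤ L ^ 2 := sq_nonneg _
  have hRK : 0 ≤ Q * Real.sqrt K2 := by positivity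
  have hnbig : (2 * 40 * 2001 : ℝ) ≤ n := by nlinarith
  have hnbig' : 2 * 40 * 2001 ≤ n := by exact_mod_cast hnbig
  have hn2 : 2 ≤ n := by omega
  have hn0 : (0 : ℝ) < n := by
    have : (2 : ℝ) ≤ n := by exact_mod_cast hn2
    linarith
  have hK0n : K0 * L ^ 2 ≤ n := by nlinarith
  have hmu := H981.one_le_mu
  have hmu0 : 0 < H981.mu := H981.mu_pos
  obtain ⟨c, hc⟩ : ∃ c : ℝ, c = cc m := ⟨_, rfl⟩
  have hc0 : 0 < c := by rw [hc]; exact cc_pos m
  have hcS : ((SW m).card : ℝ) = c := hc.symm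
  rw [← hc] at hNN
  have hexp0 : 0 < Real.exp (-(A * L ^ 2)) * (H981.mu ^ n * c) := by positivity
  have hNN0 : (0 : ℝ) < NN R n m := lt_of_lt_of_le hexp0 hNN
  obtain ⟨H, hH⟩ : ∃ H : ℝ, H = B * c * Real.exp (4 * K1 * L ^ 2) := ⟨_, rfl⟩
  have key := hratio (Ys R m) rfl rfl rfl (fun n w hw => Ys_hB n w hw) (fun _ => (1 : ℝ)) one_Wt
    H n hn2 hnbig' ?_ ?_ ?_ ?_
  · rw [af_one] at key
    have e1 : (Ys R m).s = 2 := rfl
    rw [e1, af_one] at key
    refine key.trans ?_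
    have hB' : Real.log (H * H981.mu ^ n / NN R n m) ≤ Real.log B + (4 * K1 + A) * L ^ 2 := by
      have h1 : H * H981.mu ^ n / NN R n m ≤ B * Real.exp ((4 * K1 + A) * L ^ 2) := by
        rw [div_le_iff₀ hNN0]
        have e2 : Real.exp ((4 * K1 + A) * L ^ 2) * Real.exp (-(A * L ^ 2)) =
            Real.exp (4 * K1 * L ^ 2) := by
          rw [← Real.exp_add]; ring_nf
        calc H * H981.mu ^ n = B * (Real.exp ((4 * K1 + A) * L ^ 2) * Real.exp (-(A * L ^ 2))) *
              (H981.mu ^ n * c) := by rw [hH, e2]; ring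
          _ = B * Real.exp ((4 * K1 + A) * L ^ 2) *
              (Real.exp (-(A * L ^ 2)) * (H981.mu ^ n * c)) := by ring
          _ ≤ _ := by gcongr
      have h0 : 0 < H * H981.mu ^ n / NN R n m := by rw [hH]; positivity
      calc _ ≤ Real.log (B * Real.exp ((4 * K1 + A) * L ^ 2)) := Real.log_le_log h0 h1
        _ = _ := by rw [Real.log_mul (by positivity) (by positivity), Real.log_exp]
    have hlogn : Real.log n ≤ L := Real.log_le_log hn0 (by linarith)
    have h2 : Real.log (H * H981.mu ^ n / NN R n m) + 3 * Real.log n ≤ K2 * L ^ 2 := by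
      have h3 : Real.log B ≤ 4 * Real.log B * L ^ 2 := by nlinarith
      have h4 : 3 * L ≤ 6 * L ^ 2 := by nlinarith
      rw [hK2]
      nlinarith
    have h3 : Real.sqrt ((Real.log (H * H981.mu ^ n / NN R n m) + 3 * Real.log n) / n) ≤
        Real.sqrt K2 * (L / Real.sqrt n) := by
      rw [Real.sqrt_le_left (by positivity), mul_pow, div_pow, Real.sq_sqrt hK20.le,
        Real.sq_sqrt hn0.le, ← mul_div_assoc]
      exact div_le_div_of_nonneg_right h2 hn0.le
    calc Q * Real.sqrt ((Real.log (H * H981.mu ^ n / NN R n m) + 3 * Real.log n) / n)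
        ≤ Q * (Real.sqrt K2 * (L / Real.sqrt n)) := by gcongr
      _ = (Q * Real.sqrt K2) * (L / Real.sqrt n) := by ring
      _ ≤ _ := by
          apply mul_le_mul_of_nonneg_right _ (by positivity)
          linarith
  · intro j hj
    rw [af_one]
    have h0 : (NN R j m : ℝ) ≤ ((SW j).card : ℝ) * c := by
      have h1 : NN R j m ≤ (SW j).card * (SW m).card := (NN_le R j m).trans (SW_mul j m)
      have h2 : (NN R j m : ℝ) ≤ ((SW j).card : ℝ) * ((SW m).card : ℝ) := by exact_mod_cast h1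
      rwa [hcS] at h2
    refine h0.trans ((mul_le_mul_of_nonneg_right (hup j) hc0.le).trans ?_)
    have h3 : Real.log ((j : ℝ) + 2) ≤ 2 * L := by
      have h4 : ((j : ℝ) + 2) ≤ ((n : ℝ) + 2) ^ 2 := by
        have h5 : (j : ℝ) ≤ 2 * n := by exact_mod_cast hj
        nlinarith
      calc _ ≤ Real.log (((n : ℝ) + 2) ^ 2) := Real.log_le_log (by positivity) h4
        _ = 2 * L := by rw [Real.log_pow, ← hLd]; norm_num
    have h4 : 0 ≤ Real.log ((j : ℝ) + 2) := Real.log_nonneg (by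
      have : (0 : ℝ) ≤ (j : ℝ) := Nat.cast_nonneg _
      linarith)
    have h5 : Real.log ((j : ℝ) + 2) ^ 2 ≤ 4 * L ^ 2 := by nlinarith
    have h6 : K1 * Real.log ((j : ℝ) + 2) ^ 2 ≤ 4 * K1 * L ^ 2 := by nlinarith
    rw [hH]
    calc B * H981.mu ^ j * Real.exp (K1 * Real.log ((j : ℝ) + 2) ^ 2) * c
        ≤ B * H981.mu ^ j * Real.exp (4 * K1 * L ^ 2) * c := by gcongr
      _ = _ := by ring
  · rw [af_one]
    exact hNN0
  · rw [af_one, sum_const, nsmul_eq_mul, mul_one, le_div_iff₀ (by positivity)]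
    have h1 := hsmall n hK0n n (Or.inl rfl)
    have h2 : ((((Ys R m).K n).filter (fun w => 2001 * ((Ys R m).B w).card ≤ n)).card : ℝ) ≤
        (few n).card * c := by
      rw [← hcS]
      exact_mod_cast poor n (by omega)
    have h3 : (0 : ℝ) ≤ (few n).card * c := by positivity
    calc _ ≤ ((few n).card : ℝ) * c * (n : ℝ) ^ 3 := by gcongr
      _ ≤ ((few n).card : ℝ) * c * (2 * (n : ℝ) ^ 3) := by
          apply mul_le_mul_of_nonneg_left _ h3
          have : (0 : ℝ) ≤ (n : ℝ) ^ 3 := by positivity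
          linarith
      _ = ((few n).card : ℝ) * (2 * (n : ℝ) ^ 3) * c := by ring
      _ ≤ Real.exp (-(A * L ^ 2)) * H981.mu ^ n * c := mul_le_mul_of_nonneg_right h1 hc0.le
      _ = Real.exp (-(A * L ^ 2)) * (H981.mu ^ n * c) := by ring
      _ ≤ _ := hNN
  · rw [af_one, sum_const, nsmul_eq_mul, mul_one, le_div_iff₀ (by positivity)]
    have h1 := hsmall n hK0n (n + 2) (Or.inr rfl)
    have h2 : ((((Ys R m).K (n + 2)).filter (fun w => ((Ys R m).B w).card = 0)).card : ℝ) ≤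
        (few (n + 2)).card * c := by
      have h4 := poor (R := R) (m := m) (n + 2) (by omega)
      have h5 : (((Ys R m).K (n + 2)).filter (fun w => ((Ys R m).B w).card = 0)).card ≤
          (((Ys R m).K (n + 2)).filter (fun w => 2001 * ((Ys R m).B w).card ≤ n + 2)).card := by
        refine card_le_card fun w hw => ?_
        rw [mem_filter] at hw ⊢
        exact ⟨hw.1, by rw [hw.2]; omega⟩
      rw [← hcS]
      exact_mod_cast h5.trans h4
    have h3 : (0 : ℝ) ≤ (few (n + 2)).card * c := by positivity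
    have hn1 : (1 : ℝ) ≤ n := by
      have : (2 : ℝ) ≤ n := by exact_mod_cast hn2
      linarith
    have h6 : (n : ℝ) ≤ 2 * (n : ℝ) ^ 3 := by nlinarith [sq_nonneg ((n : ℝ) - 1), mul_pos hn0 hn0]
    show ((((Ys R m).K (n + 2)).filter (fun w => ((Ys R m).B w).card = 0)).card : ℝ) * n ≤ _
    calc _ ≤ ((few (n + 2)).card : ℝ) * c * (n : ℝ) := by gcongr
      _ ≤ ((few (n + 2)).card : ℝ) * c * (2 * (n : ℝ) ^ 3) :=
          mul_le_mul_of_nonneg_left h6 h3
      _ = ((few (n + 2)).card : ℝ) * (2 * (n : ℝ) ^ 3) * c := by ring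
      _ ≤ Real.exp (-(A * L ^ 2)) * H981.mu ^ n * c := mul_le_mul_of_nonneg_right h1 hc0.le
      _ = Real.exp (-(A * L ^ 2)) * (H981.mu ^ n * c) := by ring
      _ ≤ _ := hNN

/-- going down -/
theorem P2 (A : ℝ) (hA : 0 ≤ A) : ∃ K : ℝ, 1 ≤ K ∧ ∀ (R : Rel × Rel) (n m : ℕ),
    K * Real.log (n + 2) ^ 2 ≤ n →
    Real.exp (-(A * Real.log (n + 2) ^ 2)) * (H981.mu ^ n * cc m) ≤ NN R (n + 2) m →
      Real.exp (-(K * Real.log (n + 2) ^ 2)) * (H981.mu ^ n * cc m) ≤ NN R n m := by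
  obtain ⟨K0, hK0, hsmall⟩ := small A hA
  refine ⟨K0 + A + 4 * Real.log 160 + 2, by
    have : 0 ≤ Real.log 160 := Real.log_nonneg (by norm_num)
    linarith, fun R n m hn hNN => ?_⟩
  have hl : 0 ≤ Real.log 160 := Real.log_nonneg (by norm_num)
  have hnm : (2 : ℝ) ≤ (n : ℝ) + 2 := by
    have q1 : (0 : ℝ) ≤ n := Nat.cast_nonneg _
    linarith
  have hL := half_le_log _ hnm
  set L := Real.log ((n : ℝ) + 2) with hLd
  have hL2 : 1 / 4 ≤ L ^ 2 := by nlinarith
  have hL20 : 0 ≤ L ^ 2 := sq_nonneg _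
  have hK0n : K0 * L ^ 2 ≤ n := by nlinarith
  have hn0 : (0 : ℝ) < n := by nlinarith
  have hn1 : 1 ≤ n := by exact_mod_cast hn0
  have hn1' : (1 : ℝ) ≤ n := by exact_mod_cast hn1
  obtain ⟨c, hc⟩ : ∃ c : ℝ, c = cc m := ⟨_, rfl⟩
  have hc0 : 0 < c := by rw [hc]; exact cc_pos m
  have hcS : ((SW m).card : ℝ) = c := hc.symm
  rw [← hc] at hNN ⊢
  have h1 := crude (Y := Ys R m) rfl one_Wt n
  have e1 : (Ys R m).s = 2 := rfl
  have e2 : ((Ys R m).C : ℝ) = 40 := by
    show ((40 : ℕ) : ℝ) = 40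
    norm_num
  rw [e1, e2, af_one, af_one, sum_const, nsmul_eq_mul, mul_one] at h1
  have h2 : ((((Ys R m).K (n + 2)).filter (fun w => ((Ys R m).B w).card = 0)).card : ℝ) ≤
      (few (n + 2)).card * c := by
    have h4 := poor (R := R) (m := m) (n + 2) (by omega)
    have h5 : (((Ys R m).K (n + 2)).filter (fun w => ((Ys R m).B w).card = 0)).card ≤
        (((Ys R m).K (n + 2)).filter (fun w => 2001 * ((Ys R m).B w).card ≤ n + 2)).card := by
      refine card_le_card fun w hw => ?_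
      rw [mem_filter] at hw ⊢
      exact ⟨hw.1, by rw [hw.2]; omega⟩
    rw [← hcS]
    exact_mod_cast h5.trans h4
  have h3 : ((few (n + 2)).card : ℝ) * (2 * (n : ℝ) ^ 3) * c ≤ NN R (n + 2) m := by
    refine le_trans (mul_le_mul_of_nonneg_right (hsmall n hK0n (n + 2) (Or.inr rfl)) hc0.le)
      (le_trans (le_of_eq ?_) hNN)
    ring
  have h4 : (0 : ℝ) ≤ (few (n + 2)).card * c := by positivity
  have h5 : ((few (n + 2)).card : ℝ) * c * 2 ≤ NN R (n + 2) m := by
    refine le_trans ?_ h3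
    have e : ((few (n + 2)).card : ℝ) * (2 * (n : ℝ) ^ 3) * c =
        ((few (n + 2)).card : ℝ) * c * (2 * (n : ℝ) ^ 3) := by ring
    rw [e]
    apply mul_le_mul_of_nonneg_left _ h4
    have : (1 : ℝ) ≤ (n : ℝ) ^ 3 := one_le_pow₀ hn1'
    linarith
  have h6 : (NN R (n + 2) m : ℝ) ≤ 160 * n * NN R n m := by
    have h7 : (0 : ℝ) ≤ NN R n m := Nat.cast_nonneg _
    have h8 : 40 * ((n : ℝ) + 1) * NN R n m ≤ 80 * n * NN R n m := by
      apply mul_le_mul_of_nonneg_right _ h7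
      linarith
    linarith
  have h7 : (n : ℝ) ≤ Real.exp (2 * L ^ 2) := by
    calc (n : ℝ) ≤ Real.exp L := by
          rw [hLd, Real.exp_log (by positivity)]
          linarith
      _ ≤ _ := Real.exp_le_exp.2 (by nlinarith)
  have h8 : (160 : ℝ) ≤ Real.exp (4 * Real.log 160 * L ^ 2) := by
    calc (160 : ℝ) = Real.exp (Real.log 160) := (Real.exp_log (by norm_num)).symm
      _ ≤ _ := Real.exp_le_exp.2 (by nlinarith)
  have h9 : 160 * (n : ℝ) ≤ Real.exp ((4 * Real.log 160 + 2) * L ^ 2) := by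
    calc 160 * (n : ℝ) ≤ Real.exp (4 * Real.log 160 * L ^ 2) * Real.exp (2 * L ^ 2) := by gcongr
      _ = _ := by rw [← Real.exp_add]; ring_nf
  have hmu0 : 0 < H981.mu ^ n * c := mul_pos (pow_pos H981.mu_pos _) hc0
  have h10 : Real.exp (-(A * L ^ 2)) * (H981.mu ^ n * c) ≤
      Real.exp ((4 * Real.log 160 + 2) * L ^ 2) * NN R n m :=
    (hNN.trans h6).trans (mul_le_mul_of_nonneg_right h9 (Nat.cast_nonneg _))
  have h11 : Real.exp (-((K0 + A + 4 * Real.log 160 + 2) * L ^ 2)) ≤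
      Real.exp (-((4 * Real.log 160 + 2) * L ^ 2)) * Real.exp (-(A * L ^ 2)) := by
    rw [← Real.exp_add, Real.exp_le_exp]
    nlinarith
  calc Real.exp (-((K0 + A + 4 * Real.log 160 + 2) * L ^ 2)) * (H981.mu ^ n * c)
      ≤ Real.exp (-((4 * Real.log 160 + 2) * L ^ 2)) * Real.exp (-(A * L ^ 2)) *
          (H981.mu ^ n * c) := by gcongr
    _ = Real.exp (-((4 * Real.log 160 + 2) * L ^ 2)) *
          (Real.exp (-(A * L ^ 2)) * (H981.mu ^ n * c)) := by ring
    _ ≤ Real.exp (-((4 * Real.log 160 + 2) * L ^ 2)) *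
          (Real.exp ((4 * Real.log 160 + 2) * L ^ 2) * NN R n m) := by gcongr
    _ = NN R n m := by
        rw [← mul_assoc, ← Real.exp_add, neg_add_cancel, Real.exp_zero, one_mul]

end

end Pool.Agent.Run7.h710.MT
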