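import Pool.Agent.Run7.h710.MT.P
import Pool.Agent.Run7.h738.BV.Extr
import Pool.Agent.Run7.h710.TL.B

/-!
# Walks as functions, reversal, and the sum over the marked times
-/

set_option autoImplicit false

namespace Pool.Agent.Run7.h710.MT

open Finset Pool.Agent.H976R2
open Pool.Agent.TH546.SAW (W mem_W card_W)
open scoped Classical

noncomputable section

variable {R : Rel × Rel}

/-- the time `k` is marked: `R.1` for the sites up to the time `k`, `R.2` for the sites after it -/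
def Mk (R : Rel × Rel) {N : ℕ} (ω : Fin (N + 1) → ℤ × ℤ) (k : Fin (N + 1)) : Prop :=
  ∀ j, (j ≤ k → R.1 (ω (Fin.last N)) (ω k) (ω j)) ∧ (k ≤ j → R.2 (ω (Fin.last N)) (ω k) (ω j))

theorem Mx_iff {n m : ℕ} {w : List Dir} (hw : w.length = n + m) (hn : n < n + m + 1) :
    Mx R m w ↔ Mk R (pth (n + m) w) ⟨n, hn⟩ := by
  have h1 : pth (n + m) w (Fin.last (n + m)) = en w := by
    show (wX (w.take (n + m)), wY (w.take (n + m))) = _
    rw [← hw, List.take_length]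
    rfl
  have h2 : pth (n + m) w ⟨n, hn⟩ = tp m w := by
    show Lip.PP w n = Lip.PP w (w.length - m)
    rw [hw, Nat.add_sub_cancel]
  unfold Mx Mk
  rw [h1, h2, hw]
  constructor
  · rintro ⟨h3, h4⟩ j
    have hj := j.2
    refine ⟨fun h => h3 j.1 ?_, fun h => h4 j.1 ?_ (by omega)⟩
    · have : j.1 ≤ n := h
      omega
    · have : n ≤ j.1 := h
      omega
  · intro h
    refine ⟨fun j hj => (h ⟨j, by omega⟩).1 ?_, fun j hj hj' => (h ⟨j, by omega⟩).2 ?_⟩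
    · show j ≤ n
      omega
    · show n ≤ j
      omega

theorem NN_eq (R : Rel × Rel) {n m N : ℕ} (hN : n + m = N) (hn : n < N + 1) :
    NN R n m = ((W N).filter (fun ω => Mk R ω ⟨n, hn⟩)).card := by
  subst hN
  unfold NN
  refine card_bij (fun w _ => pth (n + m) w) ?_ ?_ ?_
  · intro w hw
    obtain ⟨hw, hx⟩ := mem_filter.1 hw
    exact mem_filter.2 ⟨mem_W.2 (pth_saw hw), (Mx_iff (mem_SW.mp hw).1 hn).1 hx⟩
  · intro w hw w' hw' h
    exact pth_injOn _ (mem_coe.2 (mem_filter.1 hw).1) (mem_coe.2 (mem_filter.1 hw').1) h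
  · intro ω hω
    obtain ⟨hω, hx⟩ := mem_filter.1 hω
    have hs : IsSAW (n + m) ω := mem_W.1 hω
    have e := pth_wordOf hs
    refine ⟨wordOf _ ω, mem_filter.2 ⟨wordOf_mem hs, ?_⟩, e⟩
    rw [Mx_iff (mem_SW.mp (wordOf_mem hs)).1 hn, e]
    exact hx

/-- reversal -/
def rv {N : ℕ} (ω : Fin (N + 1) → ℤ × ℤ) : Fin (N + 1) → ℤ × ℤ :=
  fun i => ω i.rev - ω (Fin.last N)

theorem rv_last {N : ℕ} {ω : Fin (N + 1) → ℤ × ℤ} (h : ω 0 = (0, 0)) :
    rv ω (Fin.last N) = - ω (Fin.last N) := by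
  unfold rv
  rw [Fin.rev_last, h]
  show (0 : ℤ × ℤ) - _ = _
  rw [zero_sub]

theorem rv_rv {N : ℕ} {ω : Fin (N + 1) → ℤ × ℤ} (h : ω 0 = (0, 0)) : rv (rv ω) = ω := by
  funext i
  show rv ω i.rev - rv ω (Fin.last N) = ω i
  rw [rv_last h]
  show ω i.rev.rev - ω (Fin.last N) - - ω (Fin.last N) = ω i
  rw [Fin.rev_rev]
  abel

theorem rv_W {N : ℕ} {ω : Fin (N + 1) → ℤ × ℤ} (h : ω ∈ W N) : rv ω ∈ W N := by
  rw [mem_W] at h ⊢
  obtain ⟨h0, h1, h2⟩ := h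
  refine ⟨?_, ?_, ?_⟩
  · show ω (Fin.rev 0) - ω (Fin.last N) = (0, 0)
    rw [Fin.rev_zero, sub_self]
    rfl
  · intro i
    have h3 := h1 i.rev
    show |(ω (i.succ).rev - ω (Fin.last N)).1 - (ω (i.castSucc).rev - ω (Fin.last N)).1| +
      |(ω (i.succ).rev - ω (Fin.last N)).2 - (ω (i.castSucc).rev - ω (Fin.last N)).2| = 1
    rw [Fin.rev_succ, Fin.rev_castSucc]
    simp only [Prod.fst_sub, Prod.snd_sub]
    rw [← h3, abs_sub_comm ((ω i.rev.succ).1), abs_sub_comm ((ω i.rev.succ).2)]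
    congr 2 <;> ring
  · intro i j hij
    have h3 : ω i.rev - ω (Fin.last N) = ω j.rev - ω (Fin.last N) := hij
    exact Fin.rev_injective (h2 (sub_left_injective h3))

/-- the reversed relation -/
def Rv (Q : Rel) : Rel := fun x c v => Q (-x) (c - x) (v - x)

/-- the reversed relations -/
def Rr (R : Rel × Rel) : Rel × Rel := (Rv R.2, Rv R.1)

theorem Rv_rv (Q : Rel) {N : ℕ} {ω : Fin (N + 1) → ℤ × ℤ} (h : ω 0 = (0, 0)) (k j : Fin (N + 1)) :
    Rv Q (rv ω (Fin.last N)) (rv ω k) (rv ω j) ↔ Q (ω (Fin.last N)) (ω k.rev) (ω j.rev) := by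
  unfold Rv
  rw [rv_last h]
  unfold rv
  rw [neg_neg, sub_neg_eq_add, sub_neg_eq_add, sub_add_cancel, sub_add_cancel]

theorem Mk_rv (R : Rel × Rel) {N : ℕ} {ω : Fin (N + 1) → ℤ × ℤ} (h : ω 0 = (0, 0))
    (k : Fin (N + 1)) : Mk (Rr R) (rv ω) k ↔ Mk R ω k.rev := by
  unfold Mk Rr
  simp only
  constructor
  · intro h1 j
    have h2 := h1 j.rev
    rw [Rv_rv R.2 h, Rv_rv R.1 h, Fin.rev_rev] at h2
    refine ⟨fun h3 => h2.2 ?_, fun h3 => h2.1 ?_⟩
    · rw [← Fin.rev_le_rev, Fin.rev_rev]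
      exact h3
    · rw [← Fin.rev_le_rev, Fin.rev_rev]
      exact h3
  · intro h1 j
    have h2 := h1 j.rev
    rw [Rv_rv R.2 h, Rv_rv R.1 h]
    refine ⟨fun h3 => h2.2 ?_, fun h3 => h2.1 ?_⟩
    · exact Fin.rev_le_rev.2 h3
    · exact Fin.rev_le_rev.2 h3

theorem NN_rev (R : Rel × Rel) (n m : ℕ) : NN (Rr R) m n = NN R n m := by
  have hn : n < n + m + 1 := by omega
  have hm : m < n + m + 1 := by omega
  rw [NN_eq R rfl hn, NN_eq (Rr R) (Nat.add_comm m n) hm]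
  have e1 : (⟨m, hm⟩ : Fin (n + m + 1)).rev = ⟨n, hn⟩ := by
    apply Fin.ext
    rw [Fin.val_rev]
    show n + m + 1 - (m + 1) = n
    omega
  refine card_bij (fun ω _ => rv ω) ?_ ?_ ?_
  · intro ω hω
    obtain ⟨hω, hx⟩ := mem_filter.1 hω
    have h0 := (mem_W.1 hω).1
    refine mem_filter.2 ⟨rv_W hω, ?_⟩
    -- `Mk R (rv ω) n`
    have h1 := Mk_rv R (mem_W.1 (rv_W hω)).1 ⟨m, hm⟩
    rw [rv_rv h0, e1] at h1
    exact h1.1 hx
  · intro ω hω ω' hω' h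
    rw [← rv_rv (mem_W.1 (mem_filter.1 hω).1).1, ← rv_rv (mem_W.1 (mem_filter.1 hω').1).1, h]
  · intro ω hω
    obtain ⟨hω, hx⟩ := mem_filter.1 hω
    have h0 := (mem_W.1 hω).1
    refine ⟨rv ω, mem_filter.2 ⟨rv_W hω, ?_⟩, rv_rv h0⟩
    rw [Mk_rv R h0, e1]
    exact hx

/-- the number of the marked times -/
def mk (R : Rel × Rel) {N : ℕ} (ω : Fin (N + 1) → ℤ × ℤ) : ℕ :=
  ((univ : Finset (Fin (N + 1))).filter (fun k => Mk R ω k)).card

theorem sum_NN (R : Rel × Rel) (N : ℕ) :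
    ∑ k ∈ range (N + 1), NN R k (N - k) = ∑ ω ∈ W N, mk R ω := by
  have h1 : ∑ k ∈ range (N + 1), NN R k (N - k) =
      ∑ k : Fin (N + 1), ((W N).filter (fun ω => Mk R ω k)).card := by
    rw [← Fin.sum_univ_eq_sum_range (fun k => NN R k (N - k)) (N + 1)]
    refine sum_congr rfl fun k _ => ?_
    exact NN_eq R (by have := k.2; omega) k.2
  rw [h1]
  simp only [card_filter, mk]
  rw [sum_comm]

end

end Pool.Agent.Run7.h710.MT
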