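import Pool.Agent.Run7.h710.MT.R
import Pool.Agent.TH262.UL.Inst

/-!
# The numbers of walks: lower bound for `c (n + m)` in terms of the shorter length
-/

set_option autoImplicit false

namespace Pool.Agent.Run7.h710.MT

open Finset Pool.Agent.H976R2
open Pool.Agent.TH546.SAW (W mem_W card_W)
open Pool.Agent.W840.CT (cn)
open scoped Classical

noncomputable section

theorem cc_eq (n : ℕ) : (TH262.UL.a n : ℝ) = cc n := TH262.UL.a_eq' n

theorem cc_cn (n : ℕ) : (cn n : ℝ) = cc n := by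
  rw [← cc_eq, TH262.UL.a_eq, Pool.Agent.W840.CT.cn_eq]

theorem cc_zero : cc 0 ≤ 1 := by
  unfold cc
  have h : (SW 0).card ≤ 1 := by
    rw [card_le_one]
    intro a ha b hb
    have h1 := List.length_eq_zero_iff.1 (mem_SW.mp ha).1
    have h2 := List.length_eq_zero_iff.1 (mem_SW.mp hb).1
    rw [h1, h2]
  exact_mod_cast h

theorem sup0 : ∃ B : ℝ, 0 ≤ B ∧ ∀ n m : ℕ, m ≤ n →
    cc n * cc m ≤ Real.exp (B * Real.log ((m : ℝ) + 2) ^ 2) * cc (n + m) := by
  obtain ⟨K, c, C, h⟩ := TH262.UL.hy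
  obtain ⟨B, hB, hs⟩ := h.short
  refine ⟨B, hB, fun n m hmn => ?_⟩
  have hn := cc_pos n
  have hm := cc_pos m
  have hnm := cc_pos (n + m)
  have he : 1 ≤ Real.exp (B * Real.log ((m : ℝ) + 2) ^ 2) := Real.one_le_exp (by positivity)
  rcases Nat.eq_zero_or_pos m with rfl | hm1
  · have h0 := cc_zero
    calc cc n * cc 0 ≤ cc n * 1 := by gcongr
      _ = 1 * cc (n + 0) := by rw [Nat.add_zero]; ring
      _ ≤ _ := by gcongr
  · have h1 := hs n m hm1 hmn
    have hmu := H981.mu_pos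
    have e : TH262.UL.p TH262.UL.rr n m = cc (n + m) / (cc n * cc m) := by
      unfold TH262.UL.p TH262.UL.rr
      rw [cc_eq, cc_eq, cc_eq, pow_add]
      field_simp
    rw [e, le_div_iff₀ (by positivity), Real.exp_neg, inv_mul_le_iff₀ (Real.exp_pos _)] at h1
    refine h1.trans (mul_le_mul_of_nonneg_right ?_ hnm.le)
    rw [Real.exp_le_exp]
    have h2 : (0 : ℝ) ≤ m := Nat.cast_nonneg _
    have h3 : 0 ≤ Real.log ((m : ℝ) + 1) := Real.log_nonneg (by linarith)
    have h4 : Real.log ((m : ℝ) + 1) ≤ Real.log ((m : ℝ) + 2) :=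
      Real.log_le_log (by linarith) (by linarith)
    gcongr

/-- the shorter length -/
theorem sup : ∃ B : ℝ, 0 ≤ B ∧ ∀ (n m : ℕ) (t : ℝ), ((min n m : ℕ) : ℝ) + 2 ≤ t →
    cc n * cc m ≤ Real.exp (B * Real.log t ^ 2) * cc (n + m) := by
  obtain ⟨B, hB, h⟩ := sup0
  refine ⟨B, hB, fun n m t ht => ?_⟩
  have key : ∀ n m : ℕ, m ≤ n → (m : ℝ) + 2 ≤ t →
      cc n * cc m ≤ Real.exp (B * Real.log t ^ 2) * cc (n + m) := by
    intro n m hmn ht
    refine (h n m hmn).trans (mul_le_mul_of_nonneg_right ?_ (cc_pos _).le)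
    rw [Real.exp_le_exp]
    have h2 : (0 : ℝ) ≤ m := Nat.cast_nonneg _
    have h3 : 0 ≤ Real.log ((m : ℝ) + 2) := Real.log_nonneg (by linarith)
    have h4 : Real.log ((m : ℝ) + 2) ≤ Real.log t := Real.log_le_log (by linarith) ht
    gcongr
  rcases Nat.le_total m n with hmn | hmn
  · rw [min_eq_right hmn] at ht
    exact key n m hmn ht
  · rw [min_eq_left hmn] at ht
    rw [mul_comm, Nat.add_comm]
    exact key m n hmn ht

end

end Pool.Agent.Run7.h710.MT
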