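import Pool.Agent.H726.GB.Ratio

/-!
# The ratio theorem for systems of local moves, uniformly in the system

The theorems `tail_core`, `tail` and `ratio` of `H726.GB` (starting files), with constants which depend only on
the constants `C`, `s` of the system and on `μ`. The proofs are the same.
-/

set_option autoImplicit false

namespace Pool.Agent.Run7.h710.MT

open Finset TH966.AK H726.GB
open scoped Classical

noncomputable section

theorem tail_core (α σ : Type) {μ : ℝ} (hμ : 1 ≤ μ) (C s : ℕ) (hC1 : 1 ≤ C) :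
    ∃ c : ℝ, 0 < c ∧ ∀ (Y : Sys α σ), Y.C = C → Y.s = s → Y.n0 = 0 →
      (∀ n w, w ∈ Y.K n → (Y.B w).card ≤ Y.C * (n + 1)) → ∀ (f : α → ℝ), Y.Wt f → ∀ (H : ℝ) (n : ℕ), 1 ≤ n →
      (∀ j ≤ 2 * n, Y.af f j ≤ H * μ ^ j) → ∀ t : ℝ, 0 ≤ t → t ≤ Y.C * (n + 1) →
      ∑ w ∈ (Y.K n).filter (fun w => t ≤ |((Y.S w).card : ℝ) - μ ^ Y.s * (Y.B w).card|), f w ≤
        2 * Real.exp 1 * H * μ ^ n * Real.exp (-(c * (t ^ 2 / n))) := by
  obtain ⟨a, ha⟩ : ∃ a : ℝ, a = μ ^ s := ⟨_, rfl⟩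
  have ha1 : 1 ≤ a := by rw [ha]; exact one_le_pow₀ hμ
  have hC : (1 : ℝ) ≤ C := by exact_mod_cast hC1
  obtain ⟨κ, hκ⟩ : ∃ κ : ℝ, κ = 1 / (2 * C * (a + 2) * (s + 1)) := ⟨_, rfl⟩
  have hs0 : (0 : ℝ) ≤ s := by positivity
  have hκ0 : 0 < κ := by rw [hκ]; positivity
  refine ⟨κ / (4 * C * (a + 1)), by positivity, ?_⟩
  intro Y hYC hYs h0 hB f hf H n hn hH t ht0 htT
  subst hYC
  subst hYs
  have hn' : (1 : ℝ) ≤ n := by exact_mod_cast hn
  set m : ℕ := ⌊κ * t⌋₊ with hm
  have hm1 : (m : ℝ) ≤ κ * t := Nat.floor_le (by positivity)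
  have hm2 : κ * t < m + 1 := Nat.lt_floor_add_one _
  set T : ℝ := Y.C * (n + 1) with hT
  have hT0 : 0 < T := by rw [hT]; positivity
  have hT2 : T ≤ 2 * Y.C * n := by rw [hT]; nlinarith
  set δ : ℝ := t / (2 * T) with hδ
  have hδ0 : 0 ≤ δ := by positivity
  have hδ1 : δ ≤ 1 / 2 := by
    rw [hδ, div_le_div_iff₀ (by positivity) (by norm_num)]; linarith
  have hδT : δ * T ≤ t / 2 := by
    rw [hδ]; apply le_of_eq; field_simp
  have hmC : (a + 2) * (Y.C * m) ≤ t / 2 := by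
    have e : κ * (2 * Y.C * (a + 2) * (Y.s + 1)) = 1 := by
      rw [hκ]; field_simp
    have e1 : κ * t * (2 * Y.C * (a + 2)) * (Y.s + 1) = t := by
      calc κ * t * (2 * Y.C * (a + 2)) * (Y.s + 1) = (κ * (2 * Y.C * (a + 2) * (Y.s + 1))) * t := by
            ring
        _ = t := by rw [e, one_mul]
    have e2 : κ * t * (2 * Y.C * (a + 2)) ≤ κ * t * (2 * Y.C * (a + 2)) * (Y.s + 1) := by
      have : 0 ≤ κ * t * (2 * Y.C * (a + 2)) := by positivity
      nlinarith
    have e3 : (m : ℝ) * (2 * Y.C * (a + 2)) ≤ κ * t * (2 * Y.C * (a + 2)) :=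
      mul_le_mul_of_nonneg_right hm1 (by positivity)
    nlinarith
  have hsm : Y.s * m ≤ n := by
    have e : κ * (2 * Y.C * (a + 2) * (Y.s + 1)) = 1 := by
      rw [hκ]; field_simp
    have h1 : (Y.s : ℝ) * m ≤ n := by
      calc (Y.s : ℝ) * m ≤ Y.s * (κ * t) := mul_le_mul_of_nonneg_left hm1 hs0
        _ ≤ (Y.s + 1) * (κ * (2 * Y.C * n)) := by
            apply mul_le_mul (by linarith) _ (by positivity) (by positivity)
            exact mul_le_mul_of_nonneg_left (htT.trans hT2) hκ0.le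
        _ ≤ (Y.s + 1) * (κ * (2 * Y.C * n)) * (a + 2) := by
            apply le_mul_of_one_le_right (by positivity) (by linarith)
        _ = (κ * (2 * Y.C * (a + 2) * (Y.s + 1))) * n := by ring
        _ = n := by rw [e, one_mul]
    exact_mod_cast h1
  have hexp : Real.exp (-(m * (δ / (a + 1)))) ≤
      Real.exp 1 * Real.exp (-(κ / (4 * Y.C * (a + 1)) * (t ^ 2 / n))) := by
    rw [← Real.exp_add, Real.exp_le_exp]
    have h1 : κ / (4 * Y.C * (a + 1)) * (t ^ 2 / n) ≤ κ * t * (δ / (a + 1)) := by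
      rw [hδ]
      have e1 : κ / (4 * Y.C * (a + 1)) * (t ^ 2 / n) = κ * t ^ 2 / ((a + 1) * (4 * Y.C * n)) := by
        field_simp
      have e2 : κ * t * (t / (2 * T) / (a + 1)) = κ * t ^ 2 / ((a + 1) * (2 * T)) := by
        field_simp
      rw [e1, e2]
      apply div_le_div_of_nonneg_left (by positivity) (by positivity)
      apply mul_le_mul_of_nonneg_left _ (by positivity)
      linarith
    have h2 : κ * t * (δ / (a + 1)) ≤ (m + 1) * (δ / (a + 1)) :=
      mul_le_mul_of_nonneg_right hm2.le (by positivity)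
    have h3 : δ / (a + 1) ≤ 1 := by
      rw [div_le_one (by positivity)]; linarith
    nlinarith
  have hH0 : 0 ≤ H * μ ^ n := by
    have h4 : 0 ≤ Y.af f n := Finset.sum_nonneg fun w hw => hf.1 _ w hw
    exact h4.trans (hH n (by omega))
  have hup := upper_part (Y := Y) h0 hf (a := a) (t := t) (δ := δ) (T := T) (H := H) (μ := μ) (n := n)
    (m := m) hμ ha (fun w hw => by
      have := hB n w hw
      rw [hT]; exact_mod_cast this) hδ0 (by linarith) hδT hmC (hH _ (by omega))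
  obtain ⟨n', hn'⟩ : ∃ n', n = n' + Y.s * m := ⟨n - Y.s * m, by omega⟩
  have hlo := lower_part (Y := Y) h0 hf (a := a) (t := t) (δ := δ) (T := T) (H := H) (μ := μ) (n := n')
    (m := m) hμ ha (fun w hw => by
      rw [← hn'] at hw
      have := hB n w hw
      rw [hT]; exact_mod_cast this) hδ0 hδ1 hδT hmC (hH _ (by omega))
  rw [← hn'] at hlo
  rw [← ha]
  have hsub : (Y.K n).filter (fun w => t ≤ |((Y.S w).card : ℝ) - a * (Y.B w).card|) ⊆
      (Y.K n).filter (fun w => t ≤ (Y.S w).card - a * (Y.B w).card) ∪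
      (Y.K n).filter (fun w => t ≤ a * (Y.B w).card - (Y.S w).card) := by
    intro w hw
    rw [mem_filter] at hw
    rw [mem_union, mem_filter, mem_filter]
    rcases le_abs.1 hw.2 with h | h
    · exact Or.inl ⟨hw.1, h⟩
    · exact Or.inr ⟨hw.1, by linarith⟩
  have hfn : ∀ w ∈ Y.K n, 0 ≤ f w := fun w hw => hf.1 n w hw
  calc ∑ w ∈ (Y.K n).filter (fun w => t ≤ |((Y.S w).card : ℝ) - a * (Y.B w).card|), f w
      ≤ ∑ w ∈ (Y.K n).filter (fun w => t ≤ (Y.S w).card - a * (Y.B w).card) ∪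
          (Y.K n).filter (fun w => t ≤ a * (Y.B w).card - (Y.S w).card), f w := by
        refine Finset.sum_le_sum_of_subset_of_nonneg hsub fun w hw _ => ?_
        rw [mem_union, mem_filter, mem_filter] at hw
        exact hfn w (by tauto)
    _ ≤ ∑ w ∈ (Y.K n).filter (fun w => t ≤ (Y.S w).card - a * (Y.B w).card), f w +
          ∑ w ∈ (Y.K n).filter (fun w => t ≤ a * (Y.B w).card - (Y.S w).card), f w := by
        rw [← Finset.sum_union_inter]
        have : 0 ≤ ∑ w ∈ (Y.K n).filter (fun w => t ≤ (Y.S w).card - a * (Y.B w).card) ∩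
          (Y.K n).filter (fun w => t ≤ a * (Y.B w).card - (Y.S w).card), f w := by
          refine Finset.sum_nonneg fun w hw => ?_
          rw [mem_inter, mem_filter] at hw
          exact hfn w hw.1.1
        linarith
    _ ≤ H * μ ^ n * Real.exp (-(m * (δ / (a + 1)))) +
        H * μ ^ n * Real.exp (-(m * (δ / (a + 1)))) := add_le_add hup hlo
    _ = 2 * (H * μ ^ n) * Real.exp (-(m * (δ / (a + 1)))) := by ring
    _ ≤ 2 * (H * μ ^ n) *
        (Real.exp 1 * Real.exp (-(κ / (4 * Y.C * (a + 1)) * (t ^ 2 / n)))) :=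
        mul_le_mul_of_nonneg_left hexp (by positivity)
    _ = _ := by ring


/-- Gaussian tails -/
theorem tail (α σ : Type) {μ : ℝ} (hμ : 1 ≤ μ) (C s : ℕ) (hC1 : 1 ≤ C) :
    ∃ c : ℝ, 0 < c ∧ ∀ (Y : Sys α σ), Y.C = C → Y.s = s → Y.n0 = 0 →
      (∀ n w, w ∈ Y.K n → (Y.B w).card ≤ Y.C * (n + 1)) → ∀ (f : α → ℝ), Y.Wt f → ∀ (H : ℝ) (n : ℕ), 1 ≤ n →
      (∀ j ≤ 2 * n, Y.af f j ≤ H * μ ^ j) → ∀ t : ℝ, 0 ≤ t →
      ∑ w ∈ (Y.K n).filter (fun w => t ≤ |((Y.S w).card : ℝ) - μ ^ Y.s * (Y.B w).card|), f w ≤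
        2 * Real.exp 1 * H * μ ^ n * Real.exp (-(c * (t ^ 2 / n))) := by
  obtain ⟨c, hc, hcore⟩ := tail_core α σ hμ C s hC1
  obtain ⟨a, ha⟩ : ∃ a : ℝ, a = μ ^ s := ⟨_, rfl⟩
  have ha1 : 1 ≤ a := by rw [ha]; exact one_le_pow₀ hμ
  have hC : (1 : ℝ) ≤ C := by exact_mod_cast hC1
  refine ⟨c / a ^ 2, by positivity, ?_⟩
  intro Y hYC hYs h0 hB f hf H n hn hH t ht0
  have h := hcore Y hYC hYs h0 hB
  subst hYC
  subst hYs
  have hn' : (1 : ℝ) ≤ n := by exact_mod_cast hn
  have hH0 : 0 ≤ H * μ ^ n := by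
    have h4 : 0 ≤ Y.af f n := Finset.sum_nonneg fun w hw => hf.1 _ w hw
    exact h4.trans (hH n (by omega))
  rcases le_or_gt t (a * (Y.C * (n + 1))) with htT | htT
  · have h1 := h f hf H n hn hH (t / a) (by positivity) (by
      rw [div_le_iff₀ (by linarith), mul_comm]; exact htT)
    rw [← ha] at h1 ⊢
    have e : c * ((t / a) ^ 2 / n) = c / a ^ 2 * (t ^ 2 / n) := by field_simp
    rw [e] at h1
    refine le_trans ?_ h1
    refine Finset.sum_le_sum_of_subset_of_nonneg ?_ fun w hw _ => ?_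
    · intro w hw
      rw [mem_filter] at hw ⊢
      refine ⟨hw.1, le_trans ?_ hw.2⟩
      rw [div_le_iff₀ (by linarith)]
      nlinarith
    · rw [mem_filter] at hw
      exact hf.1 n w hw.1
  · rw [← ha]
    have he : (Y.K n).filter (fun w => t ≤ |((Y.S w).card : ℝ) - a * (Y.B w).card|) = ∅ := by
      rw [Finset.filter_eq_empty_iff]
      intro w hw hcon
      have h1 : ((Y.B w).card : ℝ) ≤ Y.C * (n + 1) := by exact_mod_cast hB n w hw
      have h2 : ((Y.S w).card : ℝ) ≤ Y.C * (n + 1) := by exact_mod_cast Y.S_le n w hw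
      have h3 : (0 : ℝ) ≤ (Y.B w).card := by positivity
      have h4 : (0 : ℝ) ≤ (Y.S w).card := by positivity
      have h5 : |((Y.S w).card : ℝ) - a * (Y.B w).card| ≤ a * (Y.C * (n + 1)) := by
        rw [abs_le]
        have h6 : a * (Y.B w).card ≤ a * (Y.C * (n + 1)) := mul_le_mul_of_nonneg_left h1 (by linarith)
        have h7 : 0 ≤ a * (Y.B w).card := by positivity
        have h8 : (Y.C : ℝ) * (n + 1) ≤ a * (Y.C * (n + 1)) :=
          le_mul_of_one_le_left (by positivity) ha1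
        constructor <;> linarith
      linarith
    rw [he, Finset.sum_empty]
    have : 0 ≤ 2 * (H * μ ^ n) * Real.exp 1 * Real.exp (-(c / a ^ 2 * (t ^ 2 / n))) := by positivity
    calc (0 : ℝ) ≤ _ := this
      _ = _ := by ring


set_option maxHeartbeats 2000000 in
/-- the ratio theorem -/
theorem ratio (α σ : Type) {μ : ℝ} (hμ : 1 ≤ μ) (C s : ℕ) (hC1 : 1 ≤ C) (M : ℕ) :
    ∃ R : ℝ, 0 < R ∧ ∀ (Y : Sys α σ), Y.C = C → Y.s = s → Y.n0 = 0 →
      (∀ n w, w ∈ Y.K n → (Y.B w).card ≤ Y.C * (n + 1)) → ∀ (f : α → ℝ), Y.Wt f → ∀ (H : ℝ) (n : ℕ), 2 ≤ n → 2 * Y.C * M ≤ n →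
      (∀ j ≤ 2 * n, Y.af f j ≤ H * μ ^ j) → 0 < Y.af f n →
      (∑ w ∈ (Y.K n).filter (fun w => M * (Y.B w).card ≤ n), f w ≤ Y.af f n / n ^ 3) →
      (∑ w ∈ (Y.K (n + Y.s)).filter (fun w => (Y.B w).card = 0), f w ≤ Y.af f n / n) →
      |Y.af f (n + Y.s) / Y.af f n - μ ^ Y.s| ≤
        R * Real.sqrt ((Real.log (H * μ ^ n / Y.af f n) + 3 * Real.log n) / n) := by
  obtain ⟨c, hc, htail0⟩ := tail α σ hμ C s hC1
  have hC : (1 : ℝ) ≤ C := by exact_mod_cast hC1
  obtain ⟨a, ha⟩ : ∃ a : ℝ, a = μ ^ s := ⟨_, rfl⟩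
  have ha1 : 1 ≤ a := by rw [ha]; exact one_le_pow₀ hμ
  have he : 0 < Real.exp 1 := Real.exp_pos 1
  obtain ⟨E, hE⟩ : ∃ E : ℝ, E = 1 + 4 * C ^ 2 * M ^ 2 + (2 * C + a) * (1 + 2 * Real.exp 1) :=
    ⟨_, rfl⟩
  have hE0 : 0 < E := by rw [hE]; positivity
  refine ⟨E + M / Real.sqrt c, by positivity, ?_⟩
  intro Y hYC hYs h0 hB f hf H n hn hnM hH hZ hpoor hpoor2
  have htail := htail0 Y hYC hYs h0 hB
  subst hYC
  subst hYs
  have hn' : (2 : ℝ) ≤ n := by exact_mod_cast hn
  have hn0 : (0 : ℝ) < n := by linarith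
  set Z := Y.af f n with hZd
  obtain ⟨L, hL⟩ : ∃ L : ℝ, L = Real.log (H * μ ^ n / Z) + 3 * Real.log n := ⟨_, rfl⟩
  have hHZ : 1 ≤ H * μ ^ n / Z := by
    rw [one_le_div hZ]; exact hH n (by omega)
  have hlog2 : (1 : ℝ) / 2 ≤ Real.log n := by
    have h1 : Real.log 2 ≤ Real.log n := Real.log_le_log (by norm_num) hn'
    have h2 := Real.log_two_gt_d9
    linarith
  have hL1 : 1 ≤ L := by
    have := Real.log_nonneg hHZ
    rw [hL]; linarith
  rw [← hL, ← ha]
  set t : ℝ := Real.sqrt (n * L / c) with ht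
  have ht0 : 0 ≤ t := Real.sqrt_nonneg _
  have ht2 : t ^ 2 = n * L / c := Real.sq_sqrt (by positivity)
  have hT := htail f hf H n (by omega) hH t ht0
  have eT : c * (t ^ 2 / n) = L := by rw [ht2]; field_simp
  rw [eT] at hT
  have eexp : Real.exp (-L) = Z / (H * μ ^ n) / n ^ 3 := by
    rw [hL, neg_add, Real.exp_add, Real.exp_neg, Real.exp_log (by linarith)]
    have e3 : 3 * Real.log (n : ℝ) = Real.log ((n : ℝ) ^ 3) := by
      rw [Real.log_pow]; norm_num
    rw [e3, Real.exp_neg, Real.exp_log (by positivity), inv_div]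
    rfl
  have hHm : 0 < H * μ ^ n := by
    have := hH n (by omega)
    linarith
  have hHne : H ≠ 0 := by
    intro h
    rw [h, zero_mul] at hHm
    exact lt_irrefl _ hHm
  have hT2 : ∑ w ∈ (Y.K n).filter (fun w => t ≤ |((Y.S w).card : ℝ) - μ ^ Y.s * (Y.B w).card|),
      f w ≤ 2 * Real.exp 1 * (Z / n ^ 3) := by
    refine hT.trans (le_of_eq ?_)
    rw [eexp]
    field_simp
  rw [← ha] at hT2
  -- the pointwise bound
  have hpt : ∀ w ∈ Y.K n, f w * |gg Y w - a| ≤
      f w * (4 * Y.C ^ 2 * M ^ 2 / n + M * t / n) +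
      ((2 * Y.C + a) * n) * ((if M * (Y.B w).card ≤ n then f w else 0) +
        (if t ≤ |((Y.S w).card : ℝ) - a * (Y.B w).card| then f w else 0)) := by
    intro w hw
    have hfw := hf.1 n w hw
    have hbase : 0 ≤ f w * (4 * Y.C ^ 2 * M ^ 2 / n + M * t / n) := by positivity
    have hcrude : |gg Y w - a| ≤ (2 * Y.C + a) * n := by
      have h1 := gg_nonneg Y w
      have h2 := gg_le Y w
      have h3 : ((Y.S w).card : ℝ) ≤ Y.C * (n + 1) := by exact_mod_cast Y.S_le n w hw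
      have h4 : (Y.C : ℝ) * (n + 1) ≤ 2 * Y.C * n := by nlinarith
      have h5 : a ≤ a * n := by nlinarith
      have h6 : (2 * Y.C + a) * n = 2 * Y.C * n + a * n := by ring
      rw [h6, abs_le]
      constructor
      · have : 0 ≤ 2 * (Y.C : ℝ) * n := by positivity
        linarith
      · have : 0 ≤ a * n := by positivity
        linarith
    have hcr : f w * |gg Y w - a| ≤ ((2 * Y.C + a) * n) * f w := by
      rw [mul_comm]; exact mul_le_mul_of_nonneg_right hcrude hfw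
    have hnn : 0 ≤ (2 * Y.C + a) * (n : ℝ) := by positivity
    by_cases h1 : M * (Y.B w).card ≤ n
    · rw [if_pos h1]
      have h2 : 0 ≤ (if t ≤ |((Y.S w).card : ℝ) - a * (Y.B w).card| then f w else 0) := by
        split_ifs
        · exact hfw
        · exact le_rfl
      refine hcr.trans (le_add_of_nonneg_of_le hbase ?_)
      exact mul_le_mul_of_nonneg_left (le_add_of_nonneg_right h2) hnn
    · by_cases h2 : t ≤ |((Y.S w).card : ℝ) - a * (Y.B w).card|
      · rw [if_pos h2, if_neg h1, zero_add]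
        exact hcr.trans (le_add_of_nonneg_left hbase)
      · rw [if_neg h1, if_neg h2, add_zero, mul_zero, add_zero]
        apply mul_le_mul_of_nonneg_left _ hfw
        push Not at h1 h2
        have h3 := gg_ratio hw hnM (by omega) h1
        have hb' : (n : ℝ) < M * (Y.B w).card := by exact_mod_cast h1
        have hb0 : (0 : ℝ) < (Y.B w).card := by
          by_contra hcon
          push Not at hcon
          have : (M : ℝ) * (Y.B w).card ≤ 0 := mul_nonpos_of_nonneg_of_nonpos (by positivity) hcon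
          linarith
        have h4 : |((Y.S w).card : ℝ) / (Y.B w).card - a| ≤ M * t / n := by
          have e : ((Y.S w).card : ℝ) / (Y.B w).card - a =
              ((Y.S w).card - a * (Y.B w).card) / (Y.B w).card := by
            field_simp
          rw [e, abs_div, abs_of_pos hb0, div_le_div_iff₀ hb0 hn0]
          calc |((Y.S w).card : ℝ) - a * (Y.B w).card| * n ≤ t * (M * (Y.B w).card) :=
                mul_le_mul h2.le hb'.le hn0.le ht0
            _ = M * t * (Y.B w).card := by ring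
        calc |gg Y w - a| ≤ |gg Y w - ((Y.S w).card : ℝ) / (Y.B w).card| +
              |((Y.S w).card : ℝ) / (Y.B w).card - a| := abs_sub_le _ _ _
          _ ≤ _ := add_le_add h3 h4
  have hsum : ∑ w ∈ Y.K n, f w * |gg Y w - a| ≤
      Z * (4 * Y.C ^ 2 * M ^ 2 / n + M * t / n) +
      ((2 * Y.C + a) * n) * (Z / n ^ 3 + 2 * Real.exp 1 * (Z / n ^ 3)) := by
    refine (Finset.sum_le_sum hpt).trans ?_
    rw [Finset.sum_add_distrib, ← Finset.sum_mul, ← Finset.mul_sum, Finset.sum_add_distrib,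
      ← Finset.sum_filter, ← Finset.sum_filter]
    have hnn : 0 ≤ (2 * Y.C + a) * (n : ℝ) := by positivity
    exact add_le_add le_rfl (mul_le_mul_of_nonneg_left (add_le_add hpoor hT2) hnn)
  -- the difference
  have hdiff : |Y.af f (n + Y.s) - a * Z| ≤ Z / n + ∑ w ∈ Y.K n, f w * |gg Y w - a| := by
    have e1 : Y.af f (n + Y.s) = ∑ w ∈ (Y.K (n + Y.s)).filter (fun w => (Y.B w).card = 0), f w +
        ∑ w ∈ Y.K n, f w * gg Y w := by
      rw [gg_sum h0 hf n]
      unfold Sys.af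
      exact (Finset.sum_filter_add_sum_filter_not _ _ _).symm
    have e2 : Y.af f (n + Y.s) - a * Z =
        ∑ w ∈ (Y.K (n + Y.s)).filter (fun w => (Y.B w).card = 0), f w +
        ∑ w ∈ Y.K n, f w * (gg Y w - a) := by
      rw [e1, hZd]
      unfold Sys.af
      rw [Finset.mul_sum]
      have : ∀ w, f w * (gg Y w - a) = f w * gg Y w - a * f w := fun w => by ring
      simp only [this, Finset.sum_sub_distrib]
      ring
    have hp0 : 0 ≤ ∑ w ∈ (Y.K (n + Y.s)).filter (fun w => (Y.B w).card = 0), f w :=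
      Finset.sum_nonneg fun w hw => hf.1 _ w (mem_filter.1 hw).1
    rw [e2]
    refine (abs_add_le _ _).trans (add_le_add ?_ ?_)
    · rw [abs_of_nonneg hp0]; exact hpoor2
    · refine (Finset.abs_sum_le_sum_abs _ _).trans (Finset.sum_le_sum fun w hw => ?_)
      rw [abs_mul, abs_of_nonneg (hf.1 n w hw)]
  have e3 : Y.af f (n + Y.s) / Z - a = (Y.af f (n + Y.s) - a * Z) / Z := by
    field_simp
  rw [e3, abs_div, abs_of_pos hZ, div_le_iff₀ hZ]
  refine (hdiff.trans (add_le_add le_rfl hsum)).trans ?_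
  -- the final estimate
  have hs1 : 1 / (n : ℝ) ≤ Real.sqrt (L / n) := by
    apply Real.le_sqrt_of_sq_le
    rw [div_pow, one_pow, div_le_div_iff₀ (by positivity) hn0]
    nlinarith
  have hs2 : M * t / n = M / Real.sqrt c * Real.sqrt (L / n) := by
    have h1 : t = Real.sqrt n * Real.sqrt L / Real.sqrt c := by
      rw [ht, Real.sqrt_div (by positivity), Real.sqrt_mul (by positivity)]
    rw [h1, Real.sqrt_div (by linarith)]
    have h2 : Real.sqrt n ^ 2 = n := Real.sq_sqrt hn0.le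
    have h3 : 0 < Real.sqrt c := Real.sqrt_pos.2 hc
    have h4 : 0 < Real.sqrt n := Real.sqrt_pos.2 hn0
    rw [div_eq_iff hn0.ne']
    field_simp
    rw [h2]
  have hn3 : (n : ℝ) * (Z / n ^ 3) ≤ Z * (1 / n) := by
    have e4 : (n : ℝ) * (Z / n ^ 3) = Z / n ^ 2 := by field_simp
    rw [e4, mul_one_div]
    apply div_le_div_of_nonneg_left hZ.le hn0
    nlinarith
  calc Z / n + (Z * (4 * Y.C ^ 2 * M ^ 2 / n + M * t / n) +
        ((2 * Y.C + a) * n) * (Z / n ^ 3 + 2 * Real.exp 1 * (Z / n ^ 3)))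
      = Z * (1 / n) + Z * (4 * Y.C ^ 2 * M ^ 2) * (1 / n) + Z * (M * t / n) +
        (2 * Y.C + a) * (1 + 2 * Real.exp 1) * (n * (Z / n ^ 3)) := by ring
    _ ≤ Z * (1 / n) + Z * (4 * Y.C ^ 2 * M ^ 2) * (1 / n) + Z * (M * t / n) +
        (2 * Y.C + a) * (1 + 2 * Real.exp 1) * (Z * (1 / n)) := by gcongr
    _ = Z * (E * (1 / n) + M * t / n) := by rw [hE]; ring
    _ ≤ Z * (E * Real.sqrt (L / n) + M / Real.sqrt c * Real.sqrt (L / n)) := by
        rw [hs2]; gcongr
    _ = _ := by ring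


/-- a crude upper bound -/
theorem crude {α σ : Type} {Y : Sys α σ} {f : α → ℝ} (h0 : Y.n0 = 0) (hf : Y.Wt f) (n : ℕ) :
    Y.af f (n + Y.s) ≤ ∑ w ∈ (Y.K (n + Y.s)).filter (fun w => (Y.B w).card = 0), f w +
      Y.C * (n + 1) * Y.af f n := by
  have e1 : Y.af f (n + Y.s) = ∑ w ∈ (Y.K (n + Y.s)).filter (fun w => (Y.B w).card = 0), f w +
      ∑ w ∈ Y.K n, f w * gg Y w := by
    rw [gg_sum h0 hf n]
    unfold Sys.af
    exact (Finset.sum_filter_add_sum_filter_not _ _ _).symm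
  rw [e1]
  refine add_le_add le_rfl ?_
  unfold Sys.af
  rw [Finset.mul_sum]
  refine Finset.sum_le_sum fun w hw => ?_
  have h1 : gg Y w ≤ Y.C * (n + 1) := (gg_le Y w).trans (by exact_mod_cast Y.S_le n w hw)
  have h2 := hf.1 n w hw
  nlinarith

end

end Pool.Agent.Run7.h710.MT
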