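import Pool.Agent.Run7.h710.MT.U
import Pool.Agent.H726.GB.SqSys

/-!
# The system of the bumps in the first part of a walk on the square lattice

`K n`: the self-avoiding words with `n + m` letters such that `R.1 x c v` holds for all sites `v` of the
walk up to time `n`, and `R.2 x c v` after it, `x` the end point and `c` the site at time `n`.  Moves: bumps are inserted before the time `n`, at allowed
sites.
-/

set_option autoImplicit false

namespace Pool.Agent.Run7.h710.MT

open Finset TH966.AK H726.GB Pool.Agent.H976R2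
open scoped Classical

noncomputable section

/-- the end point -/
def en (w : List Dir) : ℤ × ℤ := (wX w, wY w)

theorem en_ins {w : List Dir} {i : ℕ} (e : Dir) (hi : i < w.length) : en (ins w i e) = en w := by
  unfold en
  rw [wX_ins e hi, wY_ins e hi]

/-- the marked site -/
def tp (m : ℕ) (w : List Dir) : ℤ × ℤ := Lip.PP w (w.length - m)

/-- ternary relations -/
abbrev Rel := ℤ × ℤ → ℤ × ℤ → ℤ × ℤ → Prop

/-- all sites are allowed: `R.1` for the sites before the marked one, `R.2` after it -/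
def Mx (R : Rel × Rel) (m : ℕ) (w : List Dir) : Prop :=
  (∀ j, j + m ≤ w.length → R.1 (en w) (tp m w) (Lip.PP w j)) ∧
    ∀ j, w.length ≤ j + m → j ≤ w.length → R.2 (en w) (tp m w) (Lip.PP w j)

/-- the new sites are allowed, and the bump is in the first part -/
def Cd (R : Rel × Rel) (m : ℕ) (w : List Dir) (p : ℕ × Dir) : Prop :=
  p.1 + m < w.length ∧ R.1 (en w) (tp m w) (Lip.PP w p.1 + Lip.dv p.2) ∧
    R.1 (en w) (tp m w) (Lip.PP w p.1 + Lip.dv p.2 + Lip.dv (lt w p.1))

variable {R : Rel × Rel} {m : ℕ} {w : List Dir} {i : ℕ} {e : Dir}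

theorem tp_ins (hi : i + m < w.length) : tp m (ins w i e) = tp m w := by
  have h : (ins w i e).length - m = (w.length - m) + 2 := by
    rw [length_ins e (by omega)]
    omega
  unfold tp
  rw [h, Lip.PP_ins_gt w i (w.length - m) e (by omega) (by omega)]

theorem PP_ins1 (hi : i < w.length) : Lip.PP (ins w i e) (i + 1) = Lip.PP w i + Lip.dv e := by
  rw [Lip.PP_succ _ _ (by rw [length_ins e hi]; omega), Lip.PP_ins_le w i i e hi le_rfl,
    lt_ins_0 hi]

theorem PP_ins2 (hi : i < w.length) :
    Lip.PP (ins w i e) (i + 2) = Lip.PP w i + Lip.dv e + Lip.dv (lt w i) := by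
  rw [Lip.PP_succ _ _ (by rw [length_ins e hi]; omega), PP_ins1 hi, lt_ins_1 hi]

theorem Mx_ins (hi : i + m < w.length) : Mx R m (ins w i e) ↔ Mx R m w ∧
    R.1 (en w) (tp m w) (Lip.PP w i + Lip.dv e) ∧
    R.1 (en w) (tp m w) (Lip.PP w i + Lip.dv e + Lip.dv (lt w i)) := by
  unfold Mx
  rw [tp_ins hi, en_ins e (by omega), length_ins e (by omega)]
  have hi' : i < w.length := by omega
  constructor
  · rintro ⟨h1, h2⟩
    refine ⟨⟨fun j hj => ?_, fun j hj hj' => ?_⟩, ?_, ?_⟩
    · rcases Nat.lt_or_ge i j with h | h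
      · have := h1 (j + 2) (by omega)
        rwa [Lip.PP_ins_gt w i j e hi' h] at this
      · have := h1 j (by omega)
        rwa [Lip.PP_ins_le w i j e hi' h] at this
    · have := h2 (j + 2) (by omega) (by omega)
      rwa [Lip.PP_ins_gt w i j e hi' (by omega)] at this
    · have := h1 (i + 1) (by omega)
      rwa [PP_ins1 hi'] at this
    · have := h1 (i + 2) (by omega)
      rwa [PP_ins2 hi'] at this
  · rintro ⟨⟨h1, h2⟩, h3, h4⟩
    refine ⟨fun j hj => ?_, fun j hj hj' => ?_⟩
    · rcases Nat.lt_or_ge i j with h | h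
      · rcases Nat.lt_or_ge j (i + 3) with h5 | h5
        · have h6 : j = i + 1 ∨ j = i + 2 := by omega
          rcases h6 with rfl | rfl
          · rw [PP_ins1 hi']
            exact h3
          · rw [PP_ins2 hi']
            exact h4
        · obtain ⟨k, rfl⟩ : ∃ k, j = k + 2 := ⟨j - 2, by omega⟩
          rw [Lip.PP_ins_gt w i k e hi' (by omega)]
          exact h1 k (by omega)
      · rw [Lip.PP_ins_le w i j e hi' h]
        exact h1 j (by omega)
    · obtain ⟨k, rfl⟩ : ∃ k, j = k + 2 := ⟨j - 2, by omega⟩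
      rw [Lip.PP_ins_gt w i k e hi' (by omega)]
      exact h2 k (by omega) (by omega)

theorem adm_filter_ins (hw : Saw w) (h : (i, e) ∈ adm w) (Φ Φ' : ℕ × Dir → Prop)
    (hΦ : ∀ j f, j ≠ i → j < w.length → (Φ' (Lip.sh i j, f) ↔ Φ (j, f))) :
    ((adm (ins w i e)).filter Φ').card ≤ ((adm w).filter Φ).card + 12 ∧
    ((adm w).filter Φ).card ≤ ((adm (ins w i e)).filter Φ').card + 20 := by
  have h0 := h
  unfold adm at h0
  rw [mem_filter, mem_product, mem_range] at h0
  have hi : i < w.length := h0.1.1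
  have hw' : Saw (ins w i e) := h0.2.2
  have h4 : (univ : Finset Dir).card = 4 := rfl
  constructor
  · rw [← card_filter_add_card_filter_not (s := (adm (ins w i e)).filter Φ')
      (fun p => p.1 ∈ Icc i (i + 2))]
    have a1 : (((adm (ins w i e)).filter Φ').filter (fun p => p.1 ∈ Icc i (i + 2))).card ≤ 12 := by
      calc _ ≤ ((Icc i (i + 2)) ×ˢ (univ : Finset Dir)).card :=
            card_le_card (fun p hp => mem_product.mpr ⟨(mem_filter.mp hp).2, mem_univ _⟩)
        _ = 12 := by rw [card_product, Nat.card_Icc, h4]; omega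
    have a2 : (((adm (ins w i e)).filter Φ').filter (fun p => ¬ p.1 ∈ Icc i (i + 2))).card ≤
        ((adm w).filter Φ).card := by
      apply card_le_card_of_injOn (fun p => (if p.1 < i then p.1 else p.1 - 2, p.2))
      · rintro ⟨j, f⟩ hp
        rw [mem_coe, mem_filter, mem_filter, mem_Icc] at hp
        obtain ⟨⟨hp1, hp3⟩, hp2⟩ := hp
        simp only at hp2
        simp only [mem_coe]
        rw [mem_filter]
        split_ifs with hj
        · have e1 : Lip.sh i j = j := by unfold Lip.sh; rw [if_pos hj]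
          rw [← e1] at hp1 hp3
          exact ⟨((Lip.mem_adm_sh hw i e hi hw' j (by omega) f).mp hp1).1,
            (hΦ j f (by omega) (by omega)).1 hp3⟩
        · obtain ⟨k, rfl⟩ : ∃ k, j = k + 2 := ⟨j - 2, by omega⟩
          have e1 : Lip.sh i k = k + 2 := by unfold Lip.sh; rw [if_neg (by omega)]
          rw [← e1] at hp1 hp3
          have h5 := ((Lip.mem_adm_sh hw i e hi hw' k (by omega) f).mp hp1).1
          have h6 : k < w.length := (mem_adm.1 h5).1
          simpa using ⟨h5, (hΦ k f (by omega) h6).1 hp3⟩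
      · rintro ⟨j, f⟩ hp ⟨k, g⟩ hq hpq
        rw [mem_coe, mem_filter, mem_Icc] at hp hq
        simp only [Prod.mk.injEq] at hpq hp hq ⊢
        refine ⟨?_, hpq.2⟩
        have := hpq.1
        split_ifs at this <;> omega
    omega
  · set v1 := Lip.PP w i + Lip.dv e with hv1
    set v2 := Lip.PP w i + Lip.dv e + Lip.dv (lt w i) with hv2
    set T := (adm w).filter Φ with hT
    have hsub : T ⊆ ((T.filter (fun p => p.1 = i)) ∪
        (T.filter (fun p => Lip.PP w (p.1 + 0) + Lip.dv p.2 = v1)) ∪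
        (T.filter (fun p => Lip.PP w (p.1 + 0) + Lip.dv p.2 = v2)) ∪
        (T.filter (fun p => Lip.PP w (p.1 + 1) + Lip.dv p.2 = v1)) ∪
        (T.filter (fun p => Lip.PP w (p.1 + 1) + Lip.dv p.2 = v2))) ∪
        (T.filter (fun p => (Lip.sh i p.1, p.2) ∈ (adm (ins w i e)).filter Φ')) := by
      rintro ⟨j, f⟩ hpT
      have hp := (mem_filter.1 hpT).1
      have hjl : j < w.length := (mem_adm.1 hp).1
      by_contra hcon
      simp only [mem_union, mem_filter (s := T), not_or, hpT, true_and, add_zero] at hcon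
      obtain ⟨⟨⟨⟨⟨c1, c2⟩, c3⟩, c4⟩, c5⟩, c6⟩ := hcon
      rw [Lip.PP_succ w j hjl] at c4 c5
      apply c6
      rw [mem_filter, Lip.mem_adm_sh hw i e hi hw' j c1 f]
      refine ⟨⟨hp, ⟨c2, c3⟩, ?_, ?_⟩, (hΦ j f c1 hjl).2 (mem_filter.1 hpT).2⟩
      · intro h'; apply c4; rw [hv1, ← h']; abel
      · intro h'; apply c5; rw [hv2, ← h']; abel
    have hlt : ∀ p ∈ T, p.1 < w.length := by
      rintro ⟨j, f⟩ hp
      exact (mem_adm.1 (mem_filter.1 hp).1).1
    have b1 : (T.filter (fun p => p.1 = i)).card ≤ 4 := by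
      rw [← h4]
      apply card_le_card_of_injOn (fun p => p.2) (fun p _ => mem_univ _)
      rintro ⟨j, f⟩ hp ⟨k, g⟩ hq hpq
      rw [mem_coe, mem_filter] at hp hq
      simp only at hp hq hpq
      rw [hp.2, hq.2, hpq]
    have b2 : (T.filter (fun p => Lip.PP w (p.1 + 0) + Lip.dv p.2 = v1)).card ≤ 4 :=
      Lip.card_pos_le hw v1 (fun _ _ => v1) _ 0 (by omega)
        (fun p hp => ⟨hlt p (mem_filter.mp hp).1, (mem_filter.mp hp).2⟩)
    have b3 : (T.filter (fun p => Lip.PP w (p.1 + 0) + Lip.dv p.2 = v2)).card ≤ 4 :=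
      Lip.card_pos_le hw v2 (fun _ _ => v2) _ 0 (by omega)
        (fun p hp => ⟨hlt p (mem_filter.mp hp).1, (mem_filter.mp hp).2⟩)
    have b4 : (T.filter (fun p => Lip.PP w (p.1 + 1) + Lip.dv p.2 = v1)).card ≤ 4 :=
      Lip.card_pos_le hw v1 (fun _ _ => v1) _ 1 (by omega)
        (fun p hp => ⟨hlt p (mem_filter.mp hp).1, (mem_filter.mp hp).2⟩)
    have b5 : (T.filter (fun p => Lip.PP w (p.1 + 1) + Lip.dv p.2 = v2)).card ≤ 4 :=
      Lip.card_pos_le hw v2 (fun _ _ => v2) _ 1 (by omega)
        (fun p hp => ⟨hlt p (mem_filter.mp hp).1, (mem_filter.mp hp).2⟩)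
    have b6 : (T.filter (fun p => (Lip.sh i p.1, p.2) ∈ (adm (ins w i e)).filter Φ')).card ≤
        ((adm (ins w i e)).filter Φ').card := by
      apply card_le_card_of_injOn (fun p => (Lip.sh i p.1, p.2))
      · intro p hp
        rw [mem_coe, mem_filter] at hp
        exact hp.2
      · rintro ⟨j, f⟩ hp ⟨k, g⟩ hq hpq
        simp only [Prod.mk.injEq] at hpq ⊢
        exact ⟨Lip.sh_inj i hpq.1, hpq.2⟩
    have hc := card_le_card hsub
    have c1 := card_union_le ((T.filter (fun p => p.1 = i)) ∪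
        (T.filter (fun p => Lip.PP w (p.1 + 0) + Lip.dv p.2 = v1)) ∪
        (T.filter (fun p => Lip.PP w (p.1 + 0) + Lip.dv p.2 = v2)) ∪
        (T.filter (fun p => Lip.PP w (p.1 + 1) + Lip.dv p.2 = v1)) ∪
        (T.filter (fun p => Lip.PP w (p.1 + 1) + Lip.dv p.2 = v2)))
        (T.filter (fun p => (Lip.sh i p.1, p.2) ∈ (adm (ins w i e)).filter Φ'))
    have c2 := card_union_le ((T.filter (fun p => p.1 = i)) ∪
        (T.filter (fun p => Lip.PP w (p.1 + 0) + Lip.dv p.2 = v1)) ∪
        (T.filter (fun p => Lip.PP w (p.1 + 0) + Lip.dv p.2 = v2)) ∪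
        (T.filter (fun p => Lip.PP w (p.1 + 1) + Lip.dv p.2 = v1)))
        (T.filter (fun p => Lip.PP w (p.1 + 1) + Lip.dv p.2 = v2))
    have c3 := card_union_le ((T.filter (fun p => p.1 = i)) ∪
        (T.filter (fun p => Lip.PP w (p.1 + 0) + Lip.dv p.2 = v1)) ∪
        (T.filter (fun p => Lip.PP w (p.1 + 0) + Lip.dv p.2 = v2)))
        (T.filter (fun p => Lip.PP w (p.1 + 1) + Lip.dv p.2 = v1))
    have c4 := card_union_le ((T.filter (fun p => p.1 = i)) ∪
        (T.filter (fun p => Lip.PP w (p.1 + 0) + Lip.dv p.2 = v1)))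
        (T.filter (fun p => Lip.PP w (p.1 + 0) + Lip.dv p.2 = v2))
    have c5 := card_union_le (T.filter (fun p => p.1 = i))
        (T.filter (fun p => Lip.PP w (p.1 + 0) + Lip.dv p.2 = v1))
    omega

theorem bumps_filter_ins (hi : i < w.length) (Ψ Ψ' : ℕ → Prop) [DecidablePred Ψ] [DecidablePred Ψ']
    (h1 : ∀ j, j + 2 < i → (Ψ' j ↔ Ψ j)) (h2 : ∀ j, i < j → (Ψ' (j + 2) ↔ Ψ j)) :
    ((bumps w).filter Ψ).card ≤ ((bumps (ins w i e)).filter Ψ').card + 3 ∧
    ((bumps (ins w i e)).filter Ψ').card ≤ ((bumps w).filter Ψ).card + 5 := by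
  constructor
  · rw [← card_filter_add_card_filter_not (s := (bumps w).filter Ψ) (fun j => j ∈ Icc (i - 2) i)]
    have a1 : (((bumps w).filter Ψ).filter (fun j => j ∈ Icc (i - 2) i)).card ≤ 3 := by
      calc _ ≤ (Icc (i - 2) i).card := card_le_card (fun j hj => (mem_filter.mp hj).2)
        _ ≤ 3 := by rw [Nat.card_Icc]; omega
    have a2 : (((bumps w).filter Ψ).filter (fun j => ¬ j ∈ Icc (i - 2) i)).card ≤
        ((bumps (ins w i e)).filter Ψ').card := by
      apply card_le_card_of_injOn (fun j => if j < i then j else j + 2)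
      · intro j hj
        rw [mem_coe, mem_filter, mem_filter, mem_Icc] at hj
        obtain ⟨⟨hj1, hj3⟩, hj2⟩ := hj
        simp only [mem_coe]
        rw [mem_filter]
        split_ifs with h
        · rw [Lip.bumps_lt w i j e hi (by omega)]
          exact ⟨hj1, (h1 j (by omega)).2 hj3⟩
        · rw [Lip.bumps_gt w i j e hi (by omega)]
          exact ⟨hj1, (h2 j (by omega)).2 hj3⟩
      · intro j hj j' hj' hjj
        simp only at hjj
        split_ifs at hjj <;> omega
    omega
  · rw [← card_filter_add_card_filter_not (s := (bumps (ins w i e)).filter Ψ')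
      (fun j => j ∈ Icc (i - 2) (i + 2))]
    have a1 : (((bumps (ins w i e)).filter Ψ').filter (fun j => j ∈ Icc (i - 2) (i + 2))).card ≤ 5 := by
      calc _ ≤ (Icc (i - 2) (i + 2)).card := card_le_card (fun j hj => (mem_filter.mp hj).2)
        _ ≤ 5 := by rw [Nat.card_Icc]; omega
    have a2 : (((bumps (ins w i e)).filter Ψ').filter (fun j => ¬ j ∈ Icc (i - 2) (i + 2))).card ≤
        ((bumps w).filter Ψ).card := by
      apply card_le_card_of_injOn (fun j => if j < i then j else j - 2)
      · intro j hj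
        rw [mem_coe, mem_filter, mem_filter, mem_Icc] at hj
        obtain ⟨⟨hj1, hj3⟩, hj2⟩ := hj
        simp only [mem_coe]
        rw [mem_filter]
        split_ifs with h
        · rw [Lip.bumps_lt w i j e hi (by omega)] at hj1
          exact ⟨hj1, (h1 j (by omega)).1 hj3⟩
        · obtain ⟨k, rfl⟩ : ∃ k, j = k + 2 := ⟨j - 2, by omega⟩
          rw [Lip.bumps_gt w i k e hi (by omega)] at hj1
          simpa using ⟨hj1, (h2 k (by omega)).1 hj3⟩
      · intro j hj j' hj' hjj
        rw [mem_coe, mem_filter, mem_Icc] at hj hj'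
        simp only at hjj
        split_ifs at hjj <;> omega
    omega

theorem card_bmp_filter (Ψ : ℕ → Prop) [DecidablePred Ψ] : ((bmp w).filter (fun p => Ψ p.1)).card =
    ((bumps w).filter Ψ).card := by
  refine card_bij (fun p _ => p.1) ?_ ?_ ?_
  · rintro ⟨j, f⟩ hp
    rw [mem_filter, mem_bmp] at hp
    rw [mem_filter]
    exact ⟨hp.1.1, hp.2⟩
  · rintro ⟨j, f⟩ hp ⟨k, g⟩ hq hpq
    rw [mem_filter, mem_bmp] at hp hq
    simp only at hpq
    subst hpq
    rw [hp.1.2, hq.1.2]
  · intro j hj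
    rw [mem_filter] at hj
    exact ⟨(j, lt w j), mem_filter.2 ⟨mem_bmp.2 ⟨hj.1, rfl⟩, hj.2⟩, rfl⟩

theorem Cd_sh (hi : i + m < w.length) (j : ℕ) (f : Dir) (hji : j ≠ i) (hj : j < w.length) :
    Cd R m (ins w i e) (Lip.sh i j, f) ↔ Cd R m w (j, f) := by
  have h1 : lt (ins w i e) (Lip.sh i j) = lt w j := by
    unfold Lip.sh
    split_ifs with h
    · exact Lip.lt_ins_lt w i j e (by omega) h
    · exact Lip.lt_ins_gt w i j e (by omega) (by omega)
  have h2 : Lip.PP (ins w i e) (Lip.sh i j) = Lip.PP w j := by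
    unfold Lip.sh
    split_ifs with h
    · exact Lip.PP_ins_le w i j e (by omega) (by omega)
    · exact Lip.PP_ins_gt w i j e (by omega) (by omega)
  have h3 : Lip.sh i j + m < (ins w i e).length ↔ j + m < w.length := by
    rw [length_ins e (by omega)]
    unfold Lip.sh
    split_ifs with h <;> omega
  unfold Cd
  simp only
  rw [h1, h2, h3, tp_ins hi, en_ins e (by omega)]

/-- the system -/
def Ys (R : Rel × Rel) (m : ℕ) : Sys (List Dir) (ℕ × Dir) where
  K n := (SW (n + m)).filter (Mx R m)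
  S w := (adm w).filter (Cd R m w)
  B w := (bmp w).filter (fun p => p.1 + 2 + m < w.length)
  ins w p := ins w p.1 p.2
  rem w p := del w p.1
  s := 2
  C := 40
  n0 := 0
  hC := by norm_num
  ins_K := by
    rintro n w ⟨i, e⟩ hw hq
    obtain ⟨hw, hx⟩ := mem_filter.1 hw
    obtain ⟨hq, hc⟩ := mem_filter.1 hq
    have h := sqSys.ins_K (n + m) w (i, e) hw hq
    refine mem_filter.2 ⟨?_, ?_⟩
    · have e1 : n + 2 + m = n + m + 2 := by ring
      rw [e1]
      exact h
    · exact (Mx_ins hc.1).2 ⟨hx, hc.2⟩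
  ins_B := by
    rintro n w ⟨i, e⟩ hw hq
    obtain ⟨hw, hx⟩ := mem_filter.1 hw
    obtain ⟨hq, hc⟩ := mem_filter.1 hq
    refine mem_filter.2 ⟨sqSys.ins_B (n + m) w (i, e) hw hq, ?_⟩
    show i + 2 + m < (ins w i e).length
    have h1 : i + m < w.length := hc.1
    rw [length_ins e (by omega)]
    omega
  rem_ins := by
    rintro n w ⟨i, e⟩ hw hq
    exact del_ins (mem_adm.mp (mem_filter.1 hq).1).1
  rem_K := by
    rintro n w ⟨i, e⟩ - hw hq
    obtain ⟨hw, hx⟩ := mem_filter.1 hw
    obtain ⟨hq, hc⟩ := mem_filter.1 hq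
    have e1 : n + 2 + m = n + m + 2 := by ring
    rw [e1] at hw
    have h := sqSys.rem_K (n + m) w (i, e) (Nat.zero_le _) hw hq
    obtain ⟨hb, he⟩ := mem_bmp.1 hq
    obtain ⟨hi, ho, hp⟩ := mem_bumps.mp hb
    refine mem_filter.2 ⟨h, ?_⟩
    have h2 : ins (del w i) i (lt w i) = w := ins_del hi ho
    have h3 : i + 2 + m < w.length := hc
    rw [← h2] at hx
    exact ((Mx_ins (by rw [length_del hi]; omega)).1 hx).1
  rem_S := by
    rintro n w ⟨i, e⟩ - hw hq
    obtain ⟨hw, hx⟩ := mem_filter.1 hw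
    obtain ⟨hq, hc⟩ := mem_filter.1 hq
    have e1 : n + 2 + m = n + m + 2 := by ring
    rw [e1] at hw
    have h := sqSys.rem_S (n + m) w (i, e) (Nat.zero_le _) hw hq
    obtain ⟨hb, he⟩ := mem_bmp.1 hq
    obtain ⟨hi, ho, hp⟩ := mem_bumps.mp hb
    have h2 : ins (del w i) i (lt w i) = w := ins_del hi ho
    have h3 : i + 2 + m < w.length := hc
    have h4 : i + m < (del w i).length := by rw [length_del hi]; omega
    refine mem_filter.2 ⟨h, h4, ?_⟩
    rw [← h2] at hx
    have h5 := ((Mx_ins h4).1 hx).2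
    rw [he]
    exact h5
  ins_rem := by
    rintro n w ⟨i, e⟩ - hw hq
    obtain ⟨hb, he⟩ := mem_bmp.1 (mem_filter.1 hq).1
    obtain ⟨hi, ho, hp⟩ := mem_bumps.mp hb
    show ins (del w i) i e = w
    rw [he]
    exact ins_del hi ho
  chS1 := by
    rintro n w ⟨i, e⟩ hw hq
    obtain ⟨hq, hc⟩ := mem_filter.1 hq
    have h := (adm_filter_ins (mem_SW.mp (mem_filter.1 hw).1).2 hq (Cd R m w) (Cd R m (ins w i e))
      (fun j f h1 h2 => Cd_sh hc.1 j f h1 h2)).2
    exact h.trans (by show _ ≤ ((adm (ins w i e)).filter (Cd R m (ins w i e))).card + 40; omega)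
  chS2 := by
    rintro n w ⟨i, e⟩ hw hq
    obtain ⟨hq, hc⟩ := mem_filter.1 hq
    have h := (adm_filter_ins (mem_SW.mp (mem_filter.1 hw).1).2 hq (Cd R m w) (Cd R m (ins w i e))
      (fun j f h1 h2 => Cd_sh hc.1 j f h1 h2)).1
    exact h.trans (by omega)
  chB1 := by
    rintro n w ⟨i, e⟩ hw hq
    obtain ⟨hq, hc⟩ := mem_filter.1 hq
    have hi : i + m < w.length := hc.1
    have h := (bumps_filter_ins (w := w) (i := i) (e := e) (by omega) (fun j => j + 2 + m < w.length)
      (fun j => j + 2 + m < (ins w i e).length) (by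
        intro j hj
        rw [length_ins e (by omega)]
        constructor <;> intro <;> omega) (by
        intro j hj
        rw [length_ins e (by omega)]
        constructor <;> intro <;> omega)).1
    have e1 := card_bmp_filter (w := w) (fun j => j + 2 + m < w.length)
    have e2 := card_bmp_filter (w := ins w i e) (fun j => j + 2 + m < (ins w i e).length)
    show ((bmp w).filter (fun p => p.1 + 2 + m < w.length)).card ≤
      ((bmp (ins w i e)).filter (fun p => p.1 + 2 + m < (ins w i e).length)).card + 40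
    rw [e1, e2]
    omega
  chB2 := by
    rintro n w ⟨i, e⟩ hw hq
    obtain ⟨hq, hc⟩ := mem_filter.1 hq
    have hi : i + m < w.length := hc.1
    have h := (bumps_filter_ins (w := w) (i := i) (e := e) (by omega) (fun j => j + 2 + m < w.length)
      (fun j => j + 2 + m < (ins w i e).length) (by
        intro j hj
        rw [length_ins e (by omega)]
        constructor <;> intro <;> omega) (by
        intro j hj
        rw [length_ins e (by omega)]
        constructor <;> intro <;> omega)).2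
    have e1 := card_bmp_filter (w := w) (fun j => j + 2 + m < w.length)
    have e2 := card_bmp_filter (w := ins w i e) (fun j => j + 2 + m < (ins w i e).length)
    show ((bmp (ins w i e)).filter (fun p => p.1 + 2 + m < (ins w i e).length)).card ≤
      ((bmp w).filter (fun p => p.1 + 2 + m < w.length)).card + 40
    rw [e1, e2]
    omega
  S_le := by
    intro n w hw
    have hlen : w.length = n + m := (mem_SW.mp (mem_filter.1 hw).1).1
    have h1 : (adm w).filter (Cd R m w) ⊆ (range n) ×ˢ (univ : Finset Dir) := by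
      rintro ⟨i, e⟩ hp
      have h2 : i + m < w.length := (mem_filter.1 hp).2.1
      refine mem_product.2 ⟨mem_range.2 (by show i < n; omega), mem_univ _⟩
    refine (card_le_card h1).trans ?_
    rw [card_product, card_range]
    show n * 4 ≤ 40 * (n + 1)
    omega

theorem Ys_hB (n : ℕ) (w : List Dir) (hw : w ∈ (Ys R m).K n) :
    ((Ys R m).B w).card ≤ (Ys R m).C * (n + 1) := by
  have hlen : w.length = n + m := (mem_SW.mp (mem_filter.1 hw).1).1
  have e1 := card_bmp_filter (w := w) (fun j => j + 2 + m < w.length)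
  show ((bmp w).filter (fun p => p.1 + 2 + m < w.length)).card ≤ 40 * (n + 1)
  rw [e1]
  have h1 : (bumps w).filter (fun j => j + 2 + m < w.length) ⊆ range n := by
    intro j hj
    rw [mem_filter] at hj
    exact mem_range.2 (by omega)
  have h2 := card_le_card h1
  rw [card_range] at h2
  omega

theorem one_Wt : (Ys R m).Wt (fun _ => (1 : ℝ)) :=
  ⟨fun _ _ _ => zero_le_one, fun _ _ _ _ _ => rfl⟩

end

end Pool.Agent.Run7.h710.MT
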